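import Mathlib

set_option autoImplicit false

namespace Pool.Agent.Results.MP_522be6_co.ExponentSix

section part18582
/-- quadratic Gauss sums have modulus `√P` -/
theorem gauss_norm {P : ℕ} [Fact P.Prime] (hP : P ≠ 2) (a b : ZMod P) (ha : a ≠ 0) :
    ‖∑ x : ZMod P, (ZMod.stdAddChar (a * x ^ 2 + b * x) : ℂ)‖ = Real.sqrt P := by
  classical
  have hp : P.Prime := Fact.out
  set ψ : AddChar (ZMod P) ℂ := ZMod.stdAddChar with hψ
  set S : ℂ := ∑ x : ZMod P, ψ (a * x ^ 2 + b * x) with hS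
  have h2 : (2 : ZMod P) ≠ 0 := by
    intro h
    have h3 : ((2 : ℕ) : ZMod P) = 0 := by exact_mod_cast h
    rw [ZMod.natCast_eq_zero_iff] at h3
    exact hP ((Nat.prime_dvd_prime_iff_eq hp Nat.prime_two).1 h3)
  have h1 : S * (starRingEnd ℂ) S = P := by
    rw [hS, map_sum, Finset.sum_mul_sum, Finset.sum_comm]
    have e1 : ∀ y : ZMod P, ∑ x : ZMod P, ψ (a * x ^ 2 + b * x) * (starRingEnd ℂ) (ψ (a * y ^ 2 + b * y)) =
        ∑ h : ZMod P, ψ (a * h ^ 2 + b * h) * ψ (y * (2 * a * h)) := by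
      intro y
      rw [← Equiv.sum_comp (Equiv.addRight y)]
      refine Finset.sum_congr rfl fun h _ => ?_
      rw [← AddChar.map_neg_eq_conj, ← AddChar.map_add_eq_mul, ← AddChar.map_add_eq_mul]
      congr 1
      show a * (h + y) ^ 2 + b * (h + y) + -(a * y ^ 2 + b * y) = _
      ring
    simp_rw [e1]
    rw [Finset.sum_comm]
    simp_rw [← Finset.mul_sum]
    have e2 : ∀ h : ZMod P, ∑ y : ZMod P, ψ (y * (2 * a * h)) = if h = 0 then (P : ℂ) else 0 := by
      intro h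
      rw [AddChar.sum_mulShift _ (ZMod.isPrimitive_stdAddChar P), ZMod.card]
      by_cases hh : h = 0
      · simp [hh]
      · rw [if_neg hh, if_neg (mul_ne_zero (mul_ne_zero h2 ha) hh)]
        simp
    simp_rw [e2]
    simp
  have h3 : ((‖S‖ ^ 2 : ℝ) : ℂ) = ((P : ℝ) : ℂ) := by
    rw [Complex.mul_conj'] at h1
    push_cast
    exact h1
  have h4 : ‖S‖ ^ 2 = (P : ℝ) := by exact_mod_cast h3
  rw [← h4, Real.sqrt_sq (norm_nonneg _)]
end part18582

section part18584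
theorem iL_sum {P : ℕ} [NeZero P] (s : ZMod P) (len : ℕ) (hlen : len ≤ P) (ξ : ZMod P) :
    ∑ y ∈ Finset.univ.filter (fun y : ZMod P => (y - s).val < len),
      (ZMod.stdAddChar (ξ * y) : ℂ) =
    ZMod.stdAddChar (ξ * s) * ∑ k ∈ Finset.range len, (ZMod.stdAddChar ξ : ℂ) ^ k := by
  rw [Finset.mul_sum]
  have hval : ∀ k, k < len → ((k : ZMod P)).val = k := fun k hk =>
    ZMod.val_natCast_of_lt (lt_of_lt_of_le hk hlen)
  refine Finset.sum_bij' (fun y _ => (y - s).val) (fun k _ => s + (k : ZMod P)) ?_ ?_ ?_ ?_ ?_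
  · intro y hy
    exact Finset.mem_range.2 (Finset.mem_filter.1 hy).2
  · intro k hk
    have hk' := Finset.mem_range.1 hk
    refine Finset.mem_filter.2 ⟨Finset.mem_univ _, ?_⟩
    rw [add_sub_cancel_left, hval k hk']
    exact hk'
  · intro y _
    simp only [ZMod.natCast_zmod_val]
    ring
  · intro k hk
    have hk' := Finset.mem_range.1 hk
    simp only [add_sub_cancel_left]
    exact hval k hk'
  · intro y _
    have h1 : ξ * y = ξ * s + (y - s).val • ξ := by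
      rw [nsmul_eq_mul, ZMod.natCast_zmod_val]
      ring
    rw [h1, AddChar.map_add_eq_mul, AddChar.map_nsmul_eq_pow]

theorem iL_exp {P : ℕ} [NeZero P] (ξ : ZMod P) :
    (ZMod.stdAddChar ξ : ℂ) =
      Complex.exp (Complex.I * ((2 * Real.pi * (ξ.val : ℝ) / (P : ℝ) : ℝ) : ℂ)) := by
  have h1 : ξ = (((ξ.val : ℕ) : ℤ) : ZMod P) := by
    rw [Int.cast_natCast, ZMod.natCast_zmod_val]
  conv_lhs => rw [h1]
  rw [ZMod.stdAddChar_coe]
  congr 1
  push_cast
  ring

theorem iL_norm {P : ℕ} [NeZero P] (ξ : ZMod P) : ‖(ZMod.stdAddChar ξ : ℂ)‖ = 1 := by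
  rw [iL_exp, mul_comm, Complex.norm_exp_ofReal_mul_I]

theorem iL_sin {v P : ℝ} (hv : 0 < v) (hvP : v < P) :
    min (2 * v / P) (2 * (P - v) / P) ≤ Real.sin (Real.pi * v / P) := by
  have hP : 0 < P := hv.trans hvP
  have hpi := Real.pi_pos
  rcases le_total v (P / 2) with h | h
  · refine (min_le_left _ _).trans ?_
    have h1 := Real.mul_le_sin (x := Real.pi * v / P) (by positivity) (by
      rw [div_le_div_iff₀ hP (by norm_num)]
      nlinarith)
    calc 2 * v / P = 2 / Real.pi * (Real.pi * v / P) := by field_simp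
      _ ≤ _ := h1
  · refine (min_le_right _ _).trans ?_
    have h1 := Real.mul_le_sin (x := Real.pi * (P - v) / P) (by
      have : 0 < P - v := by linarith
      positivity) (by
      rw [div_le_div_iff₀ hP (by norm_num)]
      nlinarith)
    have h2 : Real.sin (Real.pi * (P - v) / P) = Real.sin (Real.pi * v / P) := by
      rw [← Real.sin_pi_sub]
      congr 1
      field_simp
      ring
    rw [h2] at h1
    calc 2 * (P - v) / P = 2 / Real.pi * (Real.pi * (P - v) / P) := by field_simp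
      _ ≤ _ := h1

theorem iL_bound {P : ℕ} [NeZero P] (ξ : ZMod P) (hξ : ξ ≠ 0) (len : ℕ) :
    ‖∑ k ∈ Finset.range len, (ZMod.stdAddChar ξ : ℂ) ^ k‖ ≤
      (P : ℝ) / 2 * (((ξ.val : ℝ))⁻¹ + ((P : ℝ) - ξ.val)⁻¹) := by
  set w : ℂ := ZMod.stdAddChar ξ with hw
  have hv0 : 0 < ξ.val := ZMod.val_pos.2 hξ
  have hvP : ξ.val < P := ZMod.val_lt ξ
  have hv : (0 : ℝ) < (ξ.val : ℝ) := by exact_mod_cast hv0
  have hvP' : (ξ.val : ℝ) < (P : ℝ) := by exact_mod_cast hvP
  have hP : (0 : ℝ) < (P : ℝ) := hv.trans hvP'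
  have hPv : 0 < (P : ℝ) - (ξ.val : ℝ) := by linarith
  have h1 : ‖w - 1‖ = 2 * Real.sin (Real.pi * (ξ.val : ℝ) / (P : ℝ)) := by
    rw [hw, iL_exp, Complex.norm_exp_I_mul_ofReal_sub_one]
    have h2 : 2 * Real.pi * (ξ.val : ℝ) / (P : ℝ) / 2 = Real.pi * (ξ.val : ℝ) / (P : ℝ) := by ring
    rw [h2, norm_mul, Real.norm_of_nonneg (by norm_num : (0 : ℝ) ≤ 2), Real.norm_of_nonneg]
    exact Real.sin_nonneg_of_nonneg_of_le_pi (by positivity) (by
      rw [div_le_iff₀ hP]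
      exact mul_le_mul_of_nonneg_left hvP'.le Real.pi_pos.le)
  have h2 := iL_sin hv hvP'
  have h3 : 0 < ‖w - 1‖ := by
    rw [h1]
    have : 0 < min (2 * (ξ.val : ℝ) / P) (2 * ((P : ℝ) - ξ.val) / P) :=
      lt_min (by positivity) (by positivity)
    linarith
  have hw1 : w - 1 ≠ 0 := norm_pos_iff.1 h3
  have h4 : ‖∑ k ∈ Finset.range len, w ^ k‖ * ‖w - 1‖ ≤ 2 := by
    rw [← norm_mul, geom_sum_mul]
    calc ‖w ^ len - 1‖ ≤ ‖w ^ len‖ + ‖(1 : ℂ)‖ := norm_sub_le _ _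
      _ = 2 := by rw [norm_pow, hw, iL_norm]; norm_num
  have h5 : ‖∑ k ∈ Finset.range len, w ^ k‖ ≤ 2 / ‖w - 1‖ := by
    rwa [le_div_iff₀ h3]
  refine h5.trans ?_
  rw [h1]
  rcases le_total (2 * (ξ.val : ℝ) / P) (2 * ((P : ℝ) - ξ.val) / P) with h | h
  · rw [min_eq_left h] at h2
    calc 2 / (2 * Real.sin (Real.pi * (ξ.val : ℝ) / (P : ℝ)))
        ≤ 2 / (2 * (2 * (ξ.val : ℝ) / P)) := by
          apply div_le_div_of_nonneg_left (by norm_num) (by positivity)
          linarith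
      _ = (P : ℝ) / 2 * ((ξ.val : ℝ))⁻¹ := by field_simp
      _ ≤ _ := by
          apply mul_le_mul_of_nonneg_left _ (by positivity)
          have : 0 < ((P : ℝ) - ξ.val)⁻¹ := by positivity
          linarith
  · rw [min_eq_right h] at h2
    calc 2 / (2 * Real.sin (Real.pi * (ξ.val : ℝ) / (P : ℝ)))
        ≤ 2 / (2 * (2 * ((P : ℝ) - ξ.val) / P)) := by
          apply div_le_div_of_nonneg_left (by norm_num) (by positivity)
          linarith
      _ = (P : ℝ) / 2 * ((P : ℝ) - ξ.val)⁻¹ := by field_simp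
      _ ≤ _ := by
          apply mul_le_mul_of_nonneg_left _ (by positivity)
          have : 0 < ((ξ.val : ℝ))⁻¹ := by positivity
          linarith

/-- the majorant -/
noncomputable def iG (P v : ℕ) : ℝ :=
  if v = 0 then (P : ℝ) else (P : ℝ) / 2 * (((v : ℝ))⁻¹ + ((P : ℝ) - v)⁻¹)

theorem iG_sum (n : ℕ) : ∑ v ∈ Finset.range (n + 1), iG (n + 1) v ≤
    ((n + 1 : ℕ) : ℝ) * (2 + Real.log ((n + 1 : ℕ) : ℝ)) := by
  rw [Finset.sum_range_succ']
  have h0 : iG (n + 1) 0 = ((n + 1 : ℕ) : ℝ) := by simp [iG]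
  have h1 : ∑ v ∈ Finset.range n, iG (n + 1) (v + 1) =
      ((n + 1 : ℕ) : ℝ) / 2 * (∑ v ∈ Finset.range n, ((v : ℝ) + 1)⁻¹ +
        ∑ v ∈ Finset.range n, ((n : ℝ) - v)⁻¹) := by
    rw [← Finset.sum_add_distrib, Finset.mul_sum]
    refine Finset.sum_congr rfl fun v _ => ?_
    unfold iG
    rw [if_neg (Nat.succ_ne_zero v)]
    push_cast
    congr 3
    ring
  have h2 : ∑ v ∈ Finset.range n, ((n : ℝ) - v)⁻¹ = ∑ v ∈ Finset.range n, ((v : ℝ) + 1)⁻¹ := by
    rw [← Finset.sum_range_reflect]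
    refine Finset.sum_congr rfl fun v hv => ?_
    have hv' := Finset.mem_range.1 hv
    congr 1
    have : ((n - 1 - v : ℕ) : ℝ) = (n : ℝ) - 1 - v := by
      rw [Nat.cast_sub (by omega), Nat.cast_sub (by omega)]
      norm_num
    rw [this]
    ring
  have h3 : ∑ v ∈ Finset.range n, ((v : ℝ) + 1)⁻¹ ≤ 1 + Real.log n := by
    have := harmonic_le_one_add_log n
    unfold harmonic at this
    push_cast at this
    exact this
  have h4 : Real.log n ≤ Real.log ((n + 1 : ℕ) : ℝ) := by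
    rcases Nat.eq_zero_or_pos n with rfl | hn
    · simp
    · apply Real.log_le_log (by exact_mod_cast hn)
      push_cast
      linarith
  rw [h0, h1, h2]
  have h5 : (0 : ℝ) < ((n + 1 : ℕ) : ℝ) := by positivity
  nlinarith

/-- `L¹` norm of the Fourier transform of an interval of `ZMod P` -/
theorem interval_L1 {P : ℕ} [NeZero P] (s : ZMod P) (len : ℕ) (hlen : len ≤ P) :
    ∑ ξ : ZMod P, ‖∑ y ∈ Finset.univ.filter (fun y : ZMod P => (y - s).val < len),
      (ZMod.stdAddChar (ξ * y) : ℂ)‖ ≤ P * (2 + Real.log P) := by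
  have h1 : ∀ ξ : ZMod P, ‖∑ y ∈ Finset.univ.filter (fun y : ZMod P => (y - s).val < len),
      (ZMod.stdAddChar (ξ * y) : ℂ)‖ ≤ iG P ξ.val := by
    intro ξ
    rw [iL_sum s len hlen ξ, norm_mul, iL_norm, one_mul]
    by_cases hξ : ξ = 0
    · subst hξ
      rw [AddChar.map_zero_eq_one, ZMod.val_zero]
      simp only [one_pow, Finset.sum_const, Finset.card_range, nsmul_eq_mul, mul_one, iG, if_true]
      rw [Complex.norm_natCast]
      exact_mod_cast hlen
    · have h2 := iL_bound ξ hξ len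
      have h3 : ξ.val ≠ 0 := by rwa [Ne, ZMod.val_eq_zero]
      unfold iG
      rw [if_neg h3]
      exact h2
  refine (Finset.sum_le_sum fun ξ _ => h1 ξ).trans ?_
  obtain ⟨n, rfl⟩ : ∃ n, P = n + 1 := ⟨P - 1, by have := NeZero.pos P; omega⟩
  have h2 : ∑ ξ : ZMod (n + 1), iG (n + 1) ξ.val = ∑ v ∈ Finset.range (n + 1), iG (n + 1) v :=
    Fin.sum_univ_eq_sum_range (fun v => iG (n + 1) v) (n + 1)
  rw [h2]
  exact iG_sum n
end part18584

section part18585
theorem card_interval {P : ℕ} [NeZero P] (s : ZMod P) (len : ℕ) (hlen : len ≤ P) :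
    (Finset.univ.filter (fun y : ZMod P => (y - s).val < len)).card = len := by
  have h : (Finset.univ.filter (fun y : ZMod P => (y - s).val < len)).card
      = (Finset.range len).card := by
    apply Finset.card_bij (fun (y : ZMod P) _ => (y - s).val)
    · intro a ha
      simpa using ha
    · intro a _ b _ hab
      have := ZMod.val_injective P hab
      exact sub_left_injective this
    · intro k hk
      have hk' : k < len := by simpa using hk
      refine ⟨(k : ZMod P) + s, ?_, ?_⟩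
      · simp only [Finset.mem_filter, Finset.mem_univ, true_and, add_sub_cancel_right]
        rw [ZMod.val_cast_of_lt (lt_of_lt_of_le hk' hlen)]
        exact hk'
      · simp only [add_sub_cancel_right]
        exact ZMod.val_cast_of_lt (lt_of_lt_of_le hk' hlen)
  simpa using h

/-- TARGET -/
theorem equi_one {P : ℕ} [Fact P.Prime] (hP : P ≠ 2) (s b : ZMod P) (len : ℕ) (hlen : len ≤ P) :
    ‖(∑ x ∈ Finset.univ.filter (fun x : ZMod P => (x ^ 2 - s).val < len),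
      (ZMod.stdAddChar (b * x) : ℂ)) - (if b = 0 then (len : ℂ) else 0)‖
      ≤ Real.sqrt P * (2 + Real.log P) := by
  have hPpos : (0 : ℝ) < P := by exact_mod_cast (Fact.out : P.Prime).pos
  have hPc : (P : ℂ) ≠ 0 := by exact_mod_cast (Fact.out : P.Prime).ne_zero
  set I : Finset (ZMod P) := Finset.univ.filter (fun y : ZMod P => (y - s).val < len) with hI
  have hprim : (ZMod.stdAddChar (N := P)).IsPrimitive := ZMod.isPrimitive_stdAddChar P
  have horth : ∀ c : ZMod P, ∑ ξ : ZMod P, (ZMod.stdAddChar (ξ * c) : ℂ)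
      = if c = 0 then (P : ℂ) else 0 := by
    intro c
    have := AddChar.sum_mulShift c hprim
    rw [this]
    simp [ZMod.card]
  -- key identity
  have hkey : (P : ℂ) * (∑ x ∈ Finset.univ.filter (fun x : ZMod P => (x ^ 2 - s).val < len),
      (ZMod.stdAddChar (b * x) : ℂ))
      = ∑ ξ : ZMod P, (∑ y ∈ I, (ZMod.stdAddChar (ξ * y) : ℂ)) *
        (∑ x : ZMod P, (ZMod.stdAddChar ((-ξ) * x ^ 2 + b * x) : ℂ)) := by
    have h1 : ∀ x : ZMod P, ∑ ξ : ZMod P, (∑ y ∈ I, (ZMod.stdAddChar (ξ * y) : ℂ)) *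
        (ZMod.stdAddChar ((-ξ) * x ^ 2 + b * x) : ℂ)
        = (ZMod.stdAddChar (b * x) : ℂ) * (if (x ^ 2 - s).val < len then (P : ℂ) else 0) := by
      intro x
      have h2 : ∀ ξ : ZMod P, (∑ y ∈ I, (ZMod.stdAddChar (ξ * y) : ℂ)) *
        (ZMod.stdAddChar ((-ξ) * x ^ 2 + b * x) : ℂ)
        = ∑ y ∈ I, (ZMod.stdAddChar (b * x) : ℂ) * (ZMod.stdAddChar (ξ * (y - x ^ 2)) : ℂ) := by
        intro ξ
        rw [Finset.sum_mul]
        refine Finset.sum_congr rfl (fun y _ => ?_)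
        rw [← AddChar.map_add_eq_mul, ← AddChar.map_add_eq_mul]
        congr 1
        ring
      rw [Finset.sum_congr rfl (fun ξ _ => h2 ξ), Finset.sum_comm]
      have h3 : ∀ y ∈ I, ∑ ξ : ZMod P, (ZMod.stdAddChar (b * x) : ℂ) *
          (ZMod.stdAddChar (ξ * (y - x ^ 2)) : ℂ)
          = (ZMod.stdAddChar (b * x) : ℂ) * (if y = x ^ 2 then (P : ℂ) else 0) := by
        intro y _
        rw [← Finset.mul_sum, horth]
        simp [sub_eq_zero]
      rw [Finset.sum_congr rfl h3, ← Finset.mul_sum, Finset.sum_ite_eq']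
      congr 1
      simp [hI]
    rw [Finset.sum_congr rfl (fun ξ _ => Finset.mul_sum _ _ _), Finset.sum_comm]
    rw [Finset.sum_congr rfl (fun x _ => h1 x), Finset.mul_sum, Finset.sum_filter]
    refine Finset.sum_congr rfl (fun x _ => ?_)
    split_ifs <;> ring
  have hcard : ((I.card : ℕ) : ℂ) = len := by
    rw [hI, card_interval s len hlen]
  have hzero : (∑ y ∈ I, (ZMod.stdAddChar ((0 : ZMod P) * y) : ℂ)) *
        (∑ x : ZMod P, (ZMod.stdAddChar ((-(0 : ZMod P)) * x ^ 2 + b * x) : ℂ))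
        = (P : ℂ) * (if b = 0 then (len : ℂ) else 0) := by
    have e1 : (∑ y ∈ I, (ZMod.stdAddChar ((0 : ZMod P) * y) : ℂ)) = len := by
      simp only [zero_mul, AddChar.map_zero_eq_one, Finset.sum_const, nsmul_eq_mul, mul_one]
      exact hcard
    have e2 : (∑ x : ZMod P, (ZMod.stdAddChar ((-(0 : ZMod P)) * x ^ 2 + b * x) : ℂ))
        = if b = 0 then (P : ℂ) else 0 := by
      rw [← horth b]
      refine Finset.sum_congr rfl (fun x _ => ?_)
      congr 1
      ring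
    rw [e1, e2]
    split_ifs <;> ring
  have hdiff : (P : ℂ) * ((∑ x ∈ Finset.univ.filter (fun x : ZMod P => (x ^ 2 - s).val < len),
      (ZMod.stdAddChar (b * x) : ℂ)) - (if b = 0 then (len : ℂ) else 0))
      = ∑ ξ ∈ Finset.univ.erase (0 : ZMod P), (∑ y ∈ I, (ZMod.stdAddChar (ξ * y) : ℂ)) *
        (∑ x : ZMod P, (ZMod.stdAddChar ((-ξ) * x ^ 2 + b * x) : ℂ)) := by
    rw [mul_sub, hkey, ← hzero, ← Finset.add_sum_erase _ _ (Finset.mem_univ (0 : ZMod P))]
    ring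
  have hbound : ‖(P : ℂ) * ((∑ x ∈ Finset.univ.filter (fun x : ZMod P => (x ^ 2 - s).val < len),
      (ZMod.stdAddChar (b * x) : ℂ)) - (if b = 0 then (len : ℂ) else 0))‖
      ≤ Real.sqrt P * (P * (2 + Real.log P)) := by
    rw [hdiff]
    refine le_trans (norm_sum_le _ _) ?_
    have h4 : ∀ ξ ∈ Finset.univ.erase (0 : ZMod P),
        ‖(∑ y ∈ I, (ZMod.stdAddChar (ξ * y) : ℂ)) *
        (∑ x : ZMod P, (ZMod.stdAddChar ((-ξ) * x ^ 2 + b * x) : ℂ))‖
        = Real.sqrt P * ‖∑ y ∈ I, (ZMod.stdAddChar (ξ * y) : ℂ)‖ := by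
      intro ξ hξ
      have hξ0 : ξ ≠ 0 := (Finset.mem_erase.mp hξ).1
      rw [norm_mul, gauss_norm hP (-ξ) b (neg_ne_zero.mpr hξ0)]
      ring
    rw [Finset.sum_congr rfl h4, ← Finset.mul_sum]
    refine mul_le_mul_of_nonneg_left ?_ (Real.sqrt_nonneg _)
    refine le_trans (Finset.sum_le_sum_of_subset_of_nonneg (Finset.erase_subset _ _)
      (fun _ _ _ => norm_nonneg _)) ?_
    exact interval_L1 s len hlen
  rw [norm_mul, Complex.norm_natCast] at hbound
  have : (P : ℝ) * ‖(∑ x ∈ Finset.univ.filter (fun x : ZMod P => (x ^ 2 - s).val < len),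
      (ZMod.stdAddChar (b * x) : ℂ)) - (if b = 0 then (len : ℂ) else 0)‖
      ≤ P * (Real.sqrt P * (2 + Real.log P)) := by
    calc _ ≤ _ := hbound
      _ = _ := by ring
  exact le_of_mul_le_mul_left this hPpos
end part18585

section part18586
theorem std_norm {P : ℕ} [Fact P.Prime] (x : ZMod P) : ‖(ZMod.stdAddChar x : ℂ)‖ = 1 :=
  AddChar.norm_apply _ _

theorem std_sum {P : ℕ} [Fact P.Prime] (t : ZMod P) :
    ∑ d : ZMod P, (ZMod.stdAddChar (t * d) : ℂ) = if t = 0 then (P : ℂ) else 0 := by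
  have h := AddChar.sum_mulShift t (ZMod.isPrimitive_stdAddChar P)
  rw [ZMod.card] at h
  have h' : ∑ d : ZMod P, (ZMod.stdAddChar (t * d) : ℂ) = ∑ d : ZMod P, ZMod.stdAddChar (d * t) :=
    Finset.sum_congr rfl fun d _ => by rw [mul_comm]
  rw [h', h]
  split_ifs <;> simp

/-- TARGET: two-variable Weyl sum -/
theorem weyl_two {P : ℕ} [Fact P.Prime] (hP : P ≠ 2) (a b c : ZMod P)
    (h : ¬ (a = 0 ∧ b = 0 ∧ c = 0)) :
    ‖∑ x : ZMod P, ∑ d : ZMod P,
      (ZMod.stdAddChar (a * x ^ 2 + b * (x + d) ^ 2 + c * (x + 2 * d) ^ 2) : ℂ)‖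
      ≤ P * Real.sqrt P := by
  have hp : P.Prime := Fact.out
  have e : ∀ x d : ZMod P,
      (ZMod.stdAddChar (a * x ^ 2 + b * (x + d) ^ 2 + c * (x + 2 * d) ^ 2) : ℂ) =
      ZMod.stdAddChar ((a + b + c) * x ^ 2) *
        ZMod.stdAddChar ((b + 4 * c) * d ^ 2 + ((2 * b + 4 * c) * x) * d) := by
    intro x d
    rw [← AddChar.map_add_eq_mul]
    congr 1
    ring
  simp only [e, ← Finset.mul_sum]
  have hP1 : (1 : ℝ) ≤ Real.sqrt P := by
    rw [Real.one_le_sqrt]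
    exact_mod_cast hp.one_lt.le
  by_cases h1 : b + 4 * c = 0
  · rw [h1]
    simp only [zero_mul, zero_add]
    simp only [std_sum]
    by_cases hc : c = 0
    · have hb : b = 0 := by rw [hc] at h1; simpa using h1
      have ha : a ≠ 0 := fun ha => h ⟨ha, hb, hc⟩
      rw [hb, hc]
      simp only [mul_zero, add_zero, zero_mul, if_true]
      rw [← Finset.sum_mul, norm_mul]
      have hg := gauss_norm hP a 0 ha
      simp only [zero_mul, add_zero] at hg
      rw [hg, mul_comm]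
      simp
    · have h2 : 2 * b + 4 * c ≠ 0 := by
        have hb : b = -4 * c := by linear_combination h1
        rw [hb]
        have h4 : (4 : ZMod P) ≠ 0 := by
          intro h4
          have : ((4 : ℕ) : ZMod P) = 0 := by exact_mod_cast h4
          rw [ZMod.natCast_eq_zero_iff] at this
          have h5 : P ∣ 2 ^ 2 := by norm_num; exact this
          exact hP ((Nat.prime_dvd_prime_iff_eq hp Nat.prime_two).mp (hp.dvd_of_dvd_pow h5))
        have : 2 * (-4 * c) + 4 * c = -(4 * c) := by ring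
        rw [this]
        exact neg_ne_zero.mpr (mul_ne_zero h4 hc)
      have h3 : ∀ x : ZMod P, (ZMod.stdAddChar ((a + b + c) * x ^ 2) : ℂ) *
          (if (2 * b + 4 * c) * x = 0 then (P : ℂ) else 0) = if x = 0 then (P : ℂ) else 0 := by
        intro x
        by_cases hx : x = 0
        · rw [hx]; simp
        · rw [if_neg (mul_ne_zero h2 hx), if_neg hx, mul_zero]
      rw [Finset.sum_congr rfl (fun x _ => h3 x), Finset.sum_ite_eq' Finset.univ (0 : ZMod P),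
        if_pos (Finset.mem_univ _)]
      rw [Complex.norm_natCast]
      have : (0 : ℝ) ≤ P := Nat.cast_nonneg _
      nlinarith
  · refine (norm_sum_le _ _).trans ?_
    have h3 : ∀ x : ZMod P, ‖(ZMod.stdAddChar ((a + b + c) * x ^ 2) : ℂ) *
        ∑ d : ZMod P, (ZMod.stdAddChar ((b + 4 * c) * d ^ 2 + ((2 * b + 4 * c) * x) * d) : ℂ)‖
        = Real.sqrt P := by
      intro x
      rw [norm_mul, std_norm, one_mul, gauss_norm hP _ _ h1]
    rw [Finset.sum_congr rfl (fun x _ => h3 x), Finset.sum_const, Finset.card_univ, ZMod.card,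
      nsmul_eq_mul]
end part18586

section part18588
theorem norm_std_aux {P : ℕ} [NeZero P] (t : ZMod P) : ‖(ZMod.stdAddChar t : ℂ)‖ = 1 := by
  rw [ZMod.stdAddChar_apply]
  exact Circle.norm_coe _

/-- Fourier inversion for the indicator of a finite set -/
theorem indicator_aux {P : ℕ} [NeZero P] (I : Finset (ZMod P)) (y : ZMod P) :
    (if y ∈ I then (1 : ℂ) else 0) =
      (P : ℂ)⁻¹ * ∑ ξ : ZMod P, (∑ y' ∈ I, (ZMod.stdAddChar (ξ * y') : ℂ)) *
        ZMod.stdAddChar (-(ξ * y)) := by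
  have hP : (P : ℂ) ≠ 0 := by exact_mod_cast NeZero.ne P
  have h1 : ∑ ξ : ZMod P, (∑ y' ∈ I, (ZMod.stdAddChar (ξ * y') : ℂ)) *
        ZMod.stdAddChar (-(ξ * y)) = ∑ y' ∈ I, if y' - y = 0 then (P : ℂ) else 0 := by
    simp_rw [Finset.sum_mul]
    rw [Finset.sum_comm]
    apply Finset.sum_congr rfl
    intro y' _
    have h2 := AddChar.sum_mulShift (y' - y) (ZMod.isPrimitive_stdAddChar P)
    rw [ZMod.card] at h2
    rw [show (if y' - y = 0 then (P : ℂ) else 0) = ((if y' - y = 0 then P else 0 : ℕ) : ℂ) by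
      split_ifs <;> simp]
    rw [← h2]
    apply Finset.sum_congr rfl
    intro ξ _
    rw [← AddChar.map_add_eq_mul]
    congr 1
    ring
  rw [h1]
  by_cases hy : y ∈ I
  · rw [if_pos hy, Finset.sum_eq_single y]
    · simp [hP]
    · intro b _ hb
      rw [if_neg (sub_ne_zero.2 hb)]
    · intro h
      exact absurd hy h
  · rw [if_neg hy, Finset.sum_eq_zero, mul_zero]
    intro y' hy'
    rw [if_neg]
    intro h
    rw [sub_eq_zero] at h
    rw [h] at hy'
    exact hy hy'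

theorem prod_aux {α R : Type*} [Fintype α] [CommSemiring R] (A B C : α → R) :
    (∑ a, A a) * (∑ b, B b) * (∑ c, C c) = ∑ t : α × α × α, A t.1 * B t.2.1 * C t.2.2 := by
  simp only [Fintype.sum_prod_type, ← Finset.mul_sum, ← Finset.sum_mul]

/-- TARGET -/
theorem count_three {P : ℕ} [Fact P.Prime] (hP : P ≠ 2) (s : ZMod P) (len : ℕ) (hlen : len ≤ P) :
    (((Finset.univ : Finset (ZMod P × ZMod P)).filter (fun q =>
        (q.1 ^ 2 - s).val < len ∧ ((q.1 + q.2) ^ 2 - s).val < len ∧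
        ((q.1 + 2 * q.2) ^ 2 - s).val < len)).card : ℝ)
      ≤ (len : ℝ) ^ 3 / P + P * Real.sqrt P * (2 + Real.log P) ^ 3 := by
  classical
  have hPpos : 0 < P := (Fact.out : P.Prime).pos
  have hPR : (0 : ℝ) < P := by exact_mod_cast hPpos
  have hPC : (P : ℂ) ≠ 0 := by exact_mod_cast hPpos.ne'
  set I : Finset (ZMod P) := Finset.univ.filter (fun y : ZMod P => (y - s).val < len) with hI
  set J : ZMod P → ℂ := fun ξ => ∑ y ∈ I, (ZMod.stdAddChar (ξ * y) : ℂ) with hJ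
  have hcardI : I.card ≤ len := by
    have : I.card ≤ (Finset.range len).card := by
      apply Finset.card_le_card_of_injOn (fun y => (y - s).val)
      · intro y hy
        rw [Finset.mem_coe, Finset.mem_filter] at hy
        exact Finset.mem_coe.2 (Finset.mem_range.2 hy.2)
      · intro y _ y' _ h
        have h1 : y - s = y' - s := ZMod.val_injective P h
        exact sub_left_injective h1
    rwa [Finset.card_range] at this
  have hJ0 : ‖J 0‖ ≤ len := by
    have h1 : J 0 = (I.card : ℂ) := by simp [hJ]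
    rw [h1, Complex.norm_natCast]
    exact_mod_cast hcardI
  have hJsum : ∑ ξ : ZMod P, ‖J ξ‖ ≤ P * (2 + Real.log P) := interval_L1 s len hlen
  -- the exponential sums
  set S : ZMod P × ZMod P × ZMod P → ℂ := fun t => ∑ q : ZMod P × ZMod P,
    (ZMod.stdAddChar (-(t.1 * q.1 ^ 2)) * ZMod.stdAddChar (-(t.2.1 * (q.1 + q.2) ^ 2)) *
      ZMod.stdAddChar (-(t.2.2 * (q.1 + 2 * q.2) ^ 2)) : ℂ) with hS
  have hcount : ((((Finset.univ : Finset (ZMod P × ZMod P)).filter (fun q =>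
        (q.1 ^ 2 - s).val < len ∧ ((q.1 + q.2) ^ 2 - s).val < len ∧
        ((q.1 + 2 * q.2) ^ 2 - s).val < len)).card : ℕ) : ℂ) =
        ((P : ℂ)⁻¹) ^ 3 * ∑ t : ZMod P × ZMod P × ZMod P, J t.1 * J t.2.1 * J t.2.2 * S t := by
    rw [Finset.card_filter]
    push_cast
    have h1 : ∀ q : ZMod P × ZMod P,
        (if (q.1 ^ 2 - s).val < len ∧ ((q.1 + q.2) ^ 2 - s).val < len ∧
        ((q.1 + 2 * q.2) ^ 2 - s).val < len then (1 : ℂ) else 0) =
        ((P : ℂ)⁻¹) ^ 3 * ∑ t : ZMod P × ZMod P × ZMod P, J t.1 * J t.2.1 * J t.2.2 *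
          (ZMod.stdAddChar (-(t.1 * q.1 ^ 2)) * ZMod.stdAddChar (-(t.2.1 * (q.1 + q.2) ^ 2)) *
            ZMod.stdAddChar (-(t.2.2 * (q.1 + 2 * q.2) ^ 2))) := by
      intro q
      have h2 : (if (q.1 ^ 2 - s).val < len ∧ ((q.1 + q.2) ^ 2 - s).val < len ∧
        ((q.1 + 2 * q.2) ^ 2 - s).val < len then (1 : ℂ) else 0) =
        (if q.1 ^ 2 ∈ I then (1 : ℂ) else 0) * (if (q.1 + q.2) ^ 2 ∈ I then (1 : ℂ) else 0) *
          (if (q.1 + 2 * q.2) ^ 2 ∈ I then (1 : ℂ) else 0) := by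
        simp only [hI, Finset.mem_filter, Finset.mem_univ, true_and]
        by_cases c1 : (q.1 ^ 2 - s).val < len <;> by_cases c2 : ((q.1 + q.2) ^ 2 - s).val < len <;>
          by_cases c3 : ((q.1 + 2 * q.2) ^ 2 - s).val < len <;> simp [c1, c2, c3]
      rw [h2, indicator_aux I, indicator_aux I, indicator_aux I]
      have h3 := prod_aux (fun a : ZMod P => J a * ZMod.stdAddChar (-(a * q.1 ^ 2)))
        (fun b : ZMod P => J b * ZMod.stdAddChar (-(b * (q.1 + q.2) ^ 2)))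
        (fun c : ZMod P => J c * ZMod.stdAddChar (-(c * (q.1 + 2 * q.2) ^ 2)))
      have h4 : ∑ t : ZMod P × ZMod P × ZMod P, J t.1 * J t.2.1 * J t.2.2 *
          (ZMod.stdAddChar (-(t.1 * q.1 ^ 2)) * ZMod.stdAddChar (-(t.2.1 * (q.1 + q.2) ^ 2)) *
            ZMod.stdAddChar (-(t.2.2 * (q.1 + 2 * q.2) ^ 2))) =
          ∑ t : ZMod P × ZMod P × ZMod P, J t.1 * ZMod.stdAddChar (-(t.1 * q.1 ^ 2)) *
            (J t.2.1 * ZMod.stdAddChar (-(t.2.1 * (q.1 + q.2) ^ 2))) *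
            (J t.2.2 * ZMod.stdAddChar (-(t.2.2 * (q.1 + 2 * q.2) ^ 2))) := by
        apply Finset.sum_congr rfl
        intro t _
        ring
      rw [h4, ← h3]
      simp only [hJ]
      ring
    rw [Finset.sum_congr rfl (fun q _ => h1 q), ← Finset.mul_sum, Finset.sum_comm]
    congr 1
    apply Finset.sum_congr rfl
    intro t _
    exact (Finset.mul_sum _ _ _).symm
  -- bounds for the exponential sums
  have hSb : ∀ t, ‖S t‖ ≤ P * Real.sqrt P + if t = 0 then (P : ℝ) ^ 2 else 0 := by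
    intro t
    by_cases ht : t = 0
    · rw [if_pos ht]
      have h1 : ‖S t‖ ≤ (P : ℝ) ^ 2 := by
        rw [hS]
        refine (norm_sum_le _ _).trans ?_
        have h2 : ∀ q ∈ (Finset.univ : Finset (ZMod P × ZMod P)),
            ‖(ZMod.stdAddChar (-(t.1 * q.1 ^ 2)) * ZMod.stdAddChar (-(t.2.1 * (q.1 + q.2) ^ 2)) *
              ZMod.stdAddChar (-(t.2.2 * (q.1 + 2 * q.2) ^ 2)) : ℂ)‖ ≤ 1 := by
          intro q _
          rw [norm_mul, norm_mul, norm_std_aux, norm_std_aux, norm_std_aux]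
          norm_num
        refine (Finset.sum_le_sum h2).trans ?_
        rw [Finset.sum_const, Finset.card_univ, Fintype.card_prod, ZMod.card, nsmul_eq_mul]
        push_cast
        apply le_of_eq
        ring
      have h3 : 0 ≤ (P : ℝ) * Real.sqrt P := by positivity
      linarith
    · rw [if_neg ht, add_zero]
      have h1 : S t = ∑ x : ZMod P, ∑ d : ZMod P,
          (ZMod.stdAddChar ((-t.1) * x ^ 2 + (-t.2.1) * (x + d) ^ 2 +
            (-t.2.2) * (x + 2 * d) ^ 2) : ℂ) := by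
        rw [hS, ← Fintype.sum_prod_type']
        apply Finset.sum_congr rfl
        intro q _
        rw [← AddChar.map_add_eq_mul, ← AddChar.map_add_eq_mul]
        congr 1
        ring
      rw [h1]
      apply weyl_two hP
      rintro ⟨e1, e2, e3⟩
      apply ht
      rw [neg_eq_zero] at e1 e2 e3
      exact Prod.ext e1 (Prod.ext e2 e3)
  have hNsum : ∑ t : ZMod P × ZMod P × ZMod P, ‖J t.1‖ * ‖J t.2.1‖ * ‖J t.2.2‖ ≤
      (P * (2 + Real.log P)) ^ 3 := by
    rw [← prod_aux (fun a => ‖J a‖) (fun a => ‖J a‖) (fun a => ‖J a‖)]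
    have h0 : 0 ≤ ∑ a : ZMod P, ‖J a‖ := Finset.sum_nonneg fun _ _ => norm_nonneg _
    calc (∑ a : ZMod P, ‖J a‖) * (∑ b : ZMod P, ‖J b‖) * (∑ c : ZMod P, ‖J c‖)
        = (∑ a : ZMod P, ‖J a‖) ^ 3 := by ring
      _ ≤ _ := pow_le_pow_left₀ h0 hJsum 3
  have hmain : ‖∑ t : ZMod P × ZMod P × ZMod P, J t.1 * J t.2.1 * J t.2.2 * S t‖ ≤
      P * Real.sqrt P * (P * (2 + Real.log P)) ^ 3 + (len : ℝ) ^ 3 * (P : ℝ) ^ 2 := by
    refine (norm_sum_le _ _).trans ?_
    have h1 : ∀ t ∈ (Finset.univ : Finset (ZMod P × ZMod P × ZMod P)),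
        ‖J t.1 * J t.2.1 * J t.2.2 * S t‖ ≤
        P * Real.sqrt P * (‖J t.1‖ * ‖J t.2.1‖ * ‖J t.2.2‖) +
          (if t = 0 then (len : ℝ) ^ 3 * (P : ℝ) ^ 2 else 0) := by
      intro t _
      rw [norm_mul, norm_mul, norm_mul]
      have h2 : 0 ≤ ‖J t.1‖ * ‖J t.2.1‖ * ‖J t.2.2‖ := by positivity
      refine (mul_le_mul_of_nonneg_left (hSb t) h2).trans ?_
      rw [mul_add, mul_comm (‖J t.1‖ * ‖J t.2.1‖ * ‖J t.2.2‖) ((P : ℝ) * Real.sqrt P)]
      apply add_le_add le_rfl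
      by_cases ht : t = 0
      · rw [if_pos ht, if_pos ht]
        apply mul_le_mul_of_nonneg_right _ (by positivity)
        subst ht
        calc ‖J (0 : ZMod P × ZMod P × ZMod P).1‖ * ‖J (0 : ZMod P × ZMod P × ZMod P).2.1‖ *
              ‖J (0 : ZMod P × ZMod P × ZMod P).2.2‖ = ‖J 0‖ ^ 3 := by
              simp only [Prod.fst_zero, Prod.snd_zero]
              ring
          _ ≤ (len : ℝ) ^ 3 := pow_le_pow_left₀ (norm_nonneg _) hJ0 3
      · rw [if_neg ht, if_neg ht, mul_zero]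
    refine (Finset.sum_le_sum h1).trans ?_
    rw [Finset.sum_add_distrib, ← Finset.mul_sum, Finset.sum_ite_eq' Finset.univ (0 : ZMod P × ZMod P × ZMod P)]
    rw [if_pos (Finset.mem_univ _)]
    have h3 := mul_le_mul_of_nonneg_left hNsum (show 0 ≤ (P : ℝ) * Real.sqrt P by positivity)
    linarith
  have hfin : (((Finset.univ : Finset (ZMod P × ZMod P)).filter (fun q =>
        (q.1 ^ 2 - s).val < len ∧ ((q.1 + q.2) ^ 2 - s).val < len ∧
        ((q.1 + 2 * q.2) ^ 2 - s).val < len)).card : ℝ) =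
        ‖((P : ℂ)⁻¹) ^ 3 * ∑ t : ZMod P × ZMod P × ZMod P, J t.1 * J t.2.1 * J t.2.2 * S t‖ := by
    rw [← hcount, Complex.norm_natCast]
  rw [hfin, norm_mul, norm_pow, norm_inv, Complex.norm_natCast]
  calc ((P : ℝ)⁻¹) ^ 3 * ‖∑ t : ZMod P × ZMod P × ZMod P, J t.1 * J t.2.1 * J t.2.2 * S t‖
      ≤ ((P : ℝ)⁻¹) ^ 3 * (P * Real.sqrt P * (P * (2 + Real.log P)) ^ 3 +
          (len : ℝ) ^ 3 * (P : ℝ) ^ 2) := mul_le_mul_of_nonneg_left hmain (by positivity)
    _ = (len : ℝ) ^ 3 / P + P * Real.sqrt P * (2 + Real.log P) ^ 3 := by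
        field_simp
        ring
end part18588

section part18589
/-- phases of a 4-term progression of squares near multiples of `P/n` -/
theorem phase_rel {P n : ℕ} [NeZero P] [NeZero n] (len : ℕ) (h10 : 10 * n * len ≤ P)
    (h100 : 100 * n ≤ P) (h0 h1 h2 h3 : ZMod n) (y0 y1 y2 y3 : ZMod P)
    (hy : y0 - 3 * y1 + 3 * y2 - y3 = 0)
    (H0 : (y0 - ((h0.val * P / n : ℕ) : ZMod P)).val < len)
    (H1 : (y1 - ((h1.val * P / n : ℕ) : ZMod P)).val < len)
    (H2 : (y2 - ((h2.val * P / n : ℕ) : ZMod P)).val < len)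
    (H3 : (y3 - ((h3.val * P / n : ℕ) : ZMod P)).val < len) :
    h0 - 3 * h1 + 3 * h2 - h3 = 0 := by
  have hP : 0 < P := Nat.pos_of_ne_zero (NeZero.ne P)
  have hn : 0 < n := Nat.pos_of_ne_zero (NeZero.ne n)
  -- decomposition
  have key : ∀ (h : ZMod n) (y : ZMod P), (y - ((h.val * P / n : ℕ) : ZMod P)).val < len →
      ∃ s t r : ℤ, y = ((s + t : ℤ) : ZMod P) ∧ 0 ≤ t ∧ t < len ∧ 0 ≤ r ∧ r < n ∧
        s * n = (h.val : ℤ) * P - r := by
    intro h y H
    refine ⟨((h.val * P / n : ℕ) : ℤ), ((y - ((h.val * P / n : ℕ) : ZMod P)).val : ℤ),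
      ((h.val * P % n : ℕ) : ℤ), ?_, by positivity, by exact_mod_cast H, by positivity,
      by exact_mod_cast Nat.mod_lt _ hn, ?_⟩
    · rw [Int.cast_add, Int.cast_natCast, Int.cast_natCast, ZMod.natCast_zmod_val]
      ring
    · have := Nat.div_add_mod (h.val * P) n
      have h2 : ((n * (h.val * P / n) + h.val * P % n : ℕ) : ℤ) = ((h.val * P : ℕ) : ℤ) := by
        rw [this]
      push_cast at h2 ⊢
      linarith
  obtain ⟨s0, t0, r0, e0, t0a, t0b, r0a, r0b, q0⟩ := key h0 y0 H0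
  obtain ⟨s1, t1, r1, e1, t1a, t1b, r1a, r1b, q1⟩ := key h1 y1 H1
  obtain ⟨s2, t2, r2, e2, t2a, t2b, r2a, r2b, q2⟩ := key h2 y2 H2
  obtain ⟨s3, t3, r3, e3, t3a, t3b, r3a, r3b, q3⟩ := key h3 y3 H3
  have hz : (((s0 + t0) - 3 * (s1 + t1) + 3 * (s2 + t2) - (s3 + t3) : ℤ) : ZMod P) = 0 := by
    rw [← hy, e0, e1, e2, e3]
    push_cast
    ring
  rw [ZMod.intCast_zmod_eq_zero_iff_dvd] at hz
  obtain ⟨K, hK⟩ := hz
  set R : ℤ := (h0.val : ℤ) - 3 * h1.val + 3 * h2.val - h3.val with hR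
  have hmain : (P : ℤ) * (R - n * K) = (r0 - 3 * r1 + 3 * r2 - r3)
      - n * (t0 - 3 * t1 + 3 * t2 - t3) := by
    have : (n : ℤ) * ((s0 + t0) - 3 * (s1 + t1) + 3 * (s2 + t2) - (s3 + t3)) = n * (P * K) := by
      rw [hK]
    rw [hR]
    linear_combination this - (q0 - 3 * q1 + 3 * q2 - q3)
  have hlen : (0 : ℤ) < len := lt_of_le_of_lt t0a t0b
  have h10' : 10 * (n : ℤ) * len ≤ P := by exact_mod_cast h10
  have h100' : 100 * (n : ℤ) ≤ P := by exact_mod_cast h100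
  have hnz : (0 : ℤ) < n := by exact_mod_cast hn
  have hPz : (0 : ℤ) < P := by exact_mod_cast hP
  have hr1 : r0 - 3 * r1 + 3 * r2 - r3 < 4 * n := by linarith
  have hr2 : -(4 * (n : ℤ)) < r0 - 3 * r1 + 3 * r2 - r3 := by linarith
  have ht1 : (n : ℤ) * (t0 - 3 * t1 + 3 * t2 - t3) ≤ n * (4 * len) :=
    mul_le_mul_of_nonneg_left (by linarith) hnz.le
  have ht2 : (n : ℤ) * (-(4 * len)) ≤ n * (t0 - 3 * t1 + 3 * t2 - t3) :=
    mul_le_mul_of_nonneg_left (by linarith) hnz.le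
  have ea : (n : ℤ) * (4 * len) = 4 * (n * len) := by ring
  have eb : (n : ℤ) * (-(4 * len)) = -(4 * (n * len)) := by ring
  have ec : 10 * (n : ℤ) * len = 10 * (n * len) := by ring
  rw [ea] at ht1
  rw [eb] at ht2
  rw [ec] at h10'
  have hlt : (P : ℤ) * (R - n * K) < P * 1 := by rw [hmain]; linarith
  have hgt : (P : ℤ) * (-1) < P * (R - n * K) := by rw [hmain]; linarith
  have h1' : R - n * K < 1 := lt_of_mul_lt_mul_left hlt hPz.le
  have h2' : -1 < R - n * K := lt_of_mul_lt_mul_left hgt hPz.le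
  have hRK : R = n * K := by omega
  have hcast : ((R : ℤ) : ZMod n) = 0 := by
    rw [hRK]
    push_cast
    simp
  rw [hR] at hcast
  push_cast at hcast
  simpa [ZMod.natCast_zmod_val] using hcast
end part18589

section part18591
/-- no wrap-around when the outer two and the inner two terms lie in common zones -/
theorem zone {M : ℕ} [NeZero M] (y e : ZMod M)
    (h1 : 8 * y.val / M = 8 * (y + 3 * e).val / M)
    (h2 : 8 * (y + e).val / M = 8 * (y + 2 * e).val / M) :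
    ∃ d : ℤ, e = (d : ZMod M) ∧ 24 * |d| < M ∧ ((y + e).val : ℤ) = y.val + d ∧
      ((y + 2 * e).val : ℤ) = y.val + 2 * d ∧ ((y + 3 * e).val : ℤ) = y.val + 3 * d := by
  have hM : 0 < M := Nat.pos_of_ne_zero (NeZero.ne M)
  have c0 : ((y.val : ℤ) : ZMod M) = y := by
    rw [Int.cast_natCast, ZMod.natCast_zmod_val]
  have c1 : (((y + e).val : ℤ) : ZMod M) = y + e := by
    rw [Int.cast_natCast, ZMod.natCast_zmod_val]
  have c2 : (((y + 2 * e).val : ℤ) : ZMod M) = y + 2 * e := by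
    rw [Int.cast_natCast, ZMod.natCast_zmod_val]
  have c3 : (((y + 3 * e).val : ℤ) : ZMod M) = y + 3 * e := by
    rw [Int.cast_natCast, ZMod.natCast_zmod_val]
  have b0 := ZMod.val_lt y
  have b1 := ZMod.val_lt (y + e)
  have b2 := ZMod.val_lt (y + 2 * e)
  have b3 := ZMod.val_lt (y + 3 * e)
  have key : ∀ a b : ℕ, 8 * a / M = 8 * b / M → 8 * ((a : ℤ) - b) < M ∧ 8 * ((b : ℤ) - a) < M := by
    intro a b hab
    have e1 := Nat.div_add_mod (8 * a) M
    have e2 := Nat.div_add_mod (8 * b) M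
    have l1 := Nat.mod_lt (8 * a) hM
    have l2 := Nat.mod_lt (8 * b) hM
    rw [hab] at e1
    generalize M * (8 * b / M) = Q at e1 e2
    omega
  have zdiv : ∀ z : ℤ, (z : ZMod M) = 0 → |z| < M → z = 0 := by
    intro z hz hz'
    rw [ZMod.intCast_zmod_eq_zero_iff_dvd] at hz
    exact Int.eq_zero_of_abs_lt_dvd hz hz'
  generalize hv0 : y.val = v0 at *
  generalize hv1 : (y + e).val = v1 at *
  generalize hv2 : (y + 2 * e).val = v2 at *
  generalize hv3 : (y + 3 * e).val = v3 at *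
  have k1 := key _ _ h1
  have k2 := key _ _ h2
  have hd : (((v2 : ℤ) - v1 : ℤ) : ZMod M) = e := by
    rw [Int.cast_sub, c1, c2]; ring
  have hz : 3 * ((v2 : ℤ) - v1) - ((v3 : ℤ) - v0) = 0 := by
    apply zdiv
    · push_cast at c0 c1 c2 c3 ⊢
      rw [c0, c1, c2, c3]; ring
    · rw [abs_lt]; constructor <;> omega
  have hz1 : (v1 : ℤ) - (v0 + (v2 - v1)) = 0 := by
    apply zdiv
    · push_cast at c0 c1 c2 c3 ⊢
      rw [c0, c1, c2]; ring
    · rw [abs_lt]; constructor <;> omega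
  have hz2 : (v2 : ℤ) - (v0 + 2 * (v2 - v1)) = 0 := by
    omega
  refine ⟨(v2 : ℤ) - v1, hd.symm, ?_, by omega, by omega, by omega⟩
  rcases abs_cases ((v2 : ℤ) - v1) with ⟨h, _⟩ | ⟨h, _⟩ <;> rw [h] <;> omega
end part18591

section part18593
theorem code_aux : ∀ a b c d : Fin 8, (8 : ℤ) ^ (a : ℕ) - 3 * 8 ^ (b : ℕ) + 3 * 8 ^ (c : ℕ)
    - 8 ^ (d : ℕ) = 0 → a = d ∧ b = c := by
  decide +kernel

theorem code_aux2 (j0 j1 j2 j3 : ℕ) (a0 : j0 < 8) (a1 : j1 < 8) (a2 : j2 < 8) (a3 : j3 < 8)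
    (h : (8 : ℤ) ^ j0 - 3 * 8 ^ j1 + 3 * 8 ^ j2 - 8 ^ j3 = 0) : j0 = j3 ∧ j1 = j2 := by
  have h1 := code_aux ⟨j0, a0⟩ ⟨j1, a1⟩ ⟨j2, a2⟩ ⟨j3, a3⟩ h
  exact ⟨congrArg Fin.val h1.1, congrArg Fin.val h1.2⟩

theorem code_aux3 (j : ℕ) (hj : j < 8) : 1 ≤ (8 : ℤ) ^ j ∧ (8 : ℤ) ^ j ≤ 2097152 := by
  constructor
  · exact one_le_pow₀ (by norm_num)
  · calc (8 : ℤ) ^ j ≤ 8 ^ 7 := pow_le_pow_right₀ (by norm_num) (by omega)
      _ = 2097152 := by norm_num

/-- lacunary zone codes -/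
theorem code (j0 j1 j2 j3 k0 k1 k2 k3 : ℕ) (a0 : j0 < 8) (a1 : j1 < 8) (a2 : j2 < 8) (a3 : j3 < 8)
    (b0 : k0 < 8) (b1 : k1 < 8) (b2 : k2 < 8) (b3 : k3 < 8)
    (h : ((8 ^ j0 + 2 ^ 24 * 8 ^ k0 : ℕ) : ZMod (2 ^ 49)) - 3 * ((8 ^ j1 + 2 ^ 24 * 8 ^ k1 : ℕ) : ZMod (2 ^ 49))
      + 3 * ((8 ^ j2 + 2 ^ 24 * 8 ^ k2 : ℕ) : ZMod (2 ^ 49)) - ((8 ^ j3 + 2 ^ 24 * 8 ^ k3 : ℕ) : ZMod (2 ^ 49)) = 0) :
    j0 = j3 ∧ j1 = j2 ∧ k0 = k3 ∧ k1 = k2 := by
  have hd : (((8 ^ j0 + 2 ^ 24 * 8 ^ k0) - 3 * (8 ^ j1 + 2 ^ 24 * 8 ^ k1)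
      + 3 * (8 ^ j2 + 2 ^ 24 * 8 ^ k2) - (8 ^ j3 + 2 ^ 24 * 8 ^ k3) : ℤ) : ZMod (2 ^ 49)) = 0 := by
    rw [← h]
    push_cast
    ring
  rw [ZMod.intCast_zmod_eq_zero_iff_dvd] at hd
  obtain ⟨c, hc⟩ := hd
  obtain ⟨l0, u0⟩ := code_aux3 j0 a0
  obtain ⟨l1, u1⟩ := code_aux3 j1 a1
  obtain ⟨l2, u2⟩ := code_aux3 j2 a2
  obtain ⟨l3, u3⟩ := code_aux3 j3 a3
  obtain ⟨m0, v0⟩ := code_aux3 k0 b0
  obtain ⟨m1, v1⟩ := code_aux3 k1 b1
  obtain ⟨m2, v2⟩ := code_aux3 k2 b2
  obtain ⟨m3, v3⟩ := code_aux3 k3 b3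
  have hR : (8 : ℤ) ^ j0 - 3 * 8 ^ j1 + 3 * 8 ^ j2 - 8 ^ j3 = 0 ∧
      (8 : ℤ) ^ k0 - 3 * 8 ^ k1 + 3 * 8 ^ k2 - 8 ^ k3 = 0 := by
    obtain ⟨R0, hR0⟩ : ∃ R0, R0 = (8 : ℤ) ^ j0 - 3 * 8 ^ j1 + 3 * 8 ^ j2 - 8 ^ j3 := ⟨_, rfl⟩
    obtain ⟨R1, hR1⟩ : ∃ R1, R1 = (8 : ℤ) ^ k0 - 3 * 8 ^ k1 + 3 * 8 ^ k2 - 8 ^ k3 := ⟨_, rfl⟩
    have q1 : R0 + 16777216 * R1 = 562949953421312 * c := by
      have : (((2 ^ 49 : ℕ) : ℤ)) = 562949953421312 := by norm_num
      rw [this] at hc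
      rw [hR0, hR1, ← hc]
      norm_num
      ring
    have q2 : R0 < 8388608 := by linarith
    have q3 : -8388608 < R0 := by linarith
    have q4 : R1 < 8388608 := by linarith
    have q5 : -8388608 < R1 := by linarith
    rw [← hR0, ← hR1]
    clear hR0 hR1 hc
    omega
  obtain ⟨e1, e2⟩ := code_aux2 j0 j1 j2 j3 a0 a1 a2 a3 hR.1
  obtain ⟨e3, e4⟩ := code_aux2 k0 k1 k2 k3 b0 b1 b2 b3 hR.2
  exact ⟨e1, e2, e3, e4⟩
end part18593

section part18596
lemma det_third {R : Type*} [CommRing R] (A B : Matrix (Fin 3) (Fin 3) R) :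
    (A + 3 • B).det - A.det - 3 * ((A + 2 • B).det - (A + B).det) = 6 * B.det := by
  have hs : ∀ (n : ℕ) (i j : Fin 3), (n • B) i j = (n : R) * B i j := by
    intro n i j
    rw [Matrix.smul_apply, nsmul_eq_mul]
  simp only [Matrix.det_fin_three, Matrix.add_apply, hs]
  push_cast
  ring

/-- a cubic (norm) form of `F_p^3` whose third differences vanish only for the zero step -/
theorem norm_three (p : ℕ) (hp : p.Prime) (h5 : 5 ≤ p) :
    ∃ G : (Fin 3 → ZMod p) → ZMod p, ∀ y d : Fin 3 → ZMod p,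
      G y - 3 * G (y + d) + 3 * G (y + 2 • d) - G (y + 3 • d) = 0 → d = 0 := by
  classical
  have : Fact p.Prime := ⟨hp⟩
  let K := GaloisField p 3
  have hfin : Module.finrank (ZMod p) K = 3 := GaloisField.finrank p (by norm_num)
  let b : Module.Basis (Fin 3) (ZMod p) K := Module.finBasisOfFinrankEq (ZMod p) K hfin
  let e : (Fin 3 → ZMod p) →ₗ[ZMod p] K := b.equivFun.symm.toLinearMap
  let A : (Fin 3 → ZMod p) → Matrix (Fin 3) (Fin 3) (ZMod p) :=
    fun v => Algebra.leftMulMatrix b (e v)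
  have hAadd : ∀ v w, A (v + w) = A v + A w := by
    intro v w; simp only [A, map_add]
  have hAsmul : ∀ (n : ℕ) v, A (n • v) = n • A v := by
    intro n v; simp only [A, map_nsmul]
  have hA0 : ∀ v, (A v).det = 0 → v = 0 := by
    intro v hv
    have h1 : Algebra.norm (ZMod p) (e v) = 0 := by
      rw [Algebra.norm_eq_matrix_det b]; exact hv
    have h2 : e v = 0 := (Algebra.norm_eq_zero_iff).mp h1
    have h3 : b.equivFun.symm v = 0 := h2
    exact (LinearEquiv.map_eq_zero_iff _).mp h3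
  refine ⟨fun y => (A y).det, ?_⟩
  intro y d h
  simp only [hAadd, hAsmul] at h
  have key := det_third (A y) (A d)
  have h6 : (6 : ZMod p) * (A d).det = 0 := by
    rw [← key]
    linear_combination (-1) * h
  have h6' : (6 : ZMod p) ≠ 0 := by
    have : ((6 : ℕ) : ZMod p) ≠ 0 := by
      rw [Ne, ZMod.natCast_eq_zero_iff]
      intro hdvd
      have h23 : p ∣ 2 * 3 := by simpa using hdvd
      rcases (Nat.Prime.dvd_mul hp).mp h23 with h | h
      · have := Nat.le_of_dvd (by norm_num) h; omega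
      · have := Nat.le_of_dvd (by norm_num) h; omega
    simpa using this
  rcases mul_eq_zero.mp h6 with h | h
  · exact absurd h h6'
  · exact hA0 _ h
end part18596

section part18774
theorem exists_h_aux (p N : ℕ) (hp : p.Prime) (h5 : 5 ≤ p) (hodd : Nat.Coprime p N)
    (cf : ℕ → ℕ → ZMod N)
    (hcode : ∀ j0 j1 j2 j3 k0 k1 k2 k3 : ℕ, j0 < 8 → j1 < 8 → j2 < 8 → j3 < 8 →
      k0 < 8 → k1 < 8 → k2 < 8 → k3 < 8 →
      cf j0 k0 - 3 * cf j1 k1 + 3 * cf j2 k2 - cf j3 k3 = 0 →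
      j0 = j3 ∧ j1 = j2 ∧ k0 = k3 ∧ k1 = k2) :
    ∃ h : ZMod p × ZMod (p + 1) × ZMod (p + 2) → ZMod (p * N),
      ∀ l m, h l - 3 * h (l + m) + 3 * h (l + 2 • m) - h (l + 3 • m) = 0 → m = 0 := by
  obtain ⟨G, hG⟩ := norm_three p hp h5
  let e := ZMod.chineseRemainder hodd
  let z2 : ZMod (p + 1) → ℕ := fun y => 8 * y.val / (p + 1)
  let z3 : ZMod (p + 2) → ℕ := fun y => 8 * y.val / (p + 2)
  have z2lt : ∀ y, z2 y < 8 := fun y => Nat.div_lt_of_lt_mul (by
    have := ZMod.val_lt y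
    omega)
  have z3lt : ∀ y, z3 y < 8 := fun y => Nat.div_lt_of_lt_mul (by
    have := ZMod.val_lt y
    omega)
  refine ⟨fun l => e.symm (G ![l.1, (l.2.1.val : ZMod p), (l.2.2.val : ZMod p)],
    cf (z2 l.2.1) (z3 l.2.2)), ?_⟩
  rintro ⟨l1, l2, l3⟩ ⟨m1, m2, m3⟩ hrel
  have h0 := congrArg e hrel
  simp only [map_sub, map_add, map_mul, map_zero, RingEquiv.apply_symm_apply, map_ofNat] at h0
  have hA := congrArg Prod.fst h0
  have hB := congrArg Prod.snd h0
  simp only [Prod.fst_sub, Prod.fst_add, Prod.fst_mul, Prod.fst_zero, Prod.fst_ofNat,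
    Prod.snd_sub, Prod.snd_add, Prod.snd_mul, Prod.snd_zero, Prod.snd_ofNat,
    Prod.mk_add_mk, Prod.smul_mk] at hA hB
  obtain ⟨c1, c2, c3, c4⟩ := hcode _ _ _ _ _ _ _ _ (z2lt _) (z2lt _) (z2lt _) (z2lt _)
    (z3lt _) (z3lt _) (z3lt _) (z3lt _) hB
  have e22 : (2 : ℕ) • m2 = 2 * m2 := by rw [nsmul_eq_mul]; norm_num
  have e23 : (3 : ℕ) • m2 = 3 * m2 := by rw [nsmul_eq_mul]; norm_num
  have e32 : (2 : ℕ) • m3 = 2 * m3 := by rw [nsmul_eq_mul]; norm_num
  have e33 : (3 : ℕ) • m3 = 3 * m3 := by rw [nsmul_eq_mul]; norm_num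
  rw [e23] at c1
  rw [e22] at c2
  rw [e33] at c3
  rw [e32] at c4
  obtain ⟨d2, f1, f2, f3, f4, f5⟩ := zone l2 m2 c1 c2
  obtain ⟨d3, g1, g2, g3, g4, g5⟩ := zone l3 m3 c3 c4
  rw [e22, e23, e32, e33] at hA
  have v1 : (((l2 + m2).val : ℕ) : ZMod p) = (l2.val : ZMod p) + (d2 : ZMod p) := by
    have := congrArg (fun t : ℤ => (t : ZMod p)) f3
    push_cast at this
    simpa using this
  have v2 : (((l2 + 2 * m2).val : ℕ) : ZMod p) = (l2.val : ZMod p) + 2 * (d2 : ZMod p) := by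
    have := congrArg (fun t : ℤ => (t : ZMod p)) f4
    push_cast at this
    simpa using this
  have v3 : (((l2 + 3 * m2).val : ℕ) : ZMod p) = (l2.val : ZMod p) + 3 * (d2 : ZMod p) := by
    have := congrArg (fun t : ℤ => (t : ZMod p)) f5
    push_cast at this
    simpa using this
  have w1 : (((l3 + m3).val : ℕ) : ZMod p) = (l3.val : ZMod p) + (d3 : ZMod p) := by
    have := congrArg (fun t : ℤ => (t : ZMod p)) g3
    push_cast at this
    simpa using this
  have w2 : (((l3 + 2 * m3).val : ℕ) : ZMod p) = (l3.val : ZMod p) + 2 * (d3 : ZMod p) := by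
    have := congrArg (fun t : ℤ => (t : ZMod p)) g4
    push_cast at this
    simpa using this
  have w3 : (((l3 + 3 * m3).val : ℕ) : ZMod p) = (l3.val : ZMod p) + 3 * (d3 : ZMod p) := by
    have := congrArg (fun t : ℤ => (t : ZMod p)) g5
    push_cast at this
    simpa using this
  rw [v1, v2, v3, w1, w2, w3] at hA
  have hd := hG ![l1, (l2.val : ZMod p), (l3.val : ZMod p)] ![m1, (d2 : ZMod p), (d3 : ZMod p)] (by
    rw [← hA]
    have a1 : (![l1, (l2.val : ZMod p), (l3.val : ZMod p)] + ![m1, (d2 : ZMod p), (d3 : ZMod p)]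
        : Fin 3 → ZMod p) = ![l1 + m1, (l2.val : ZMod p) + d2, (l3.val : ZMod p) + d3] := by
      ext i; fin_cases i <;> simp
    have a2 : (![l1, (l2.val : ZMod p), (l3.val : ZMod p)]
        + 2 • ![m1, (d2 : ZMod p), (d3 : ZMod p)] : Fin 3 → ZMod p)
        = ![l1 + 2 • m1, (l2.val : ZMod p) + 2 * d2, (l3.val : ZMod p) + 2 * d3] := by
      ext i; fin_cases i <;> simp
    have a3 : (![l1, (l2.val : ZMod p), (l3.val : ZMod p)]
        + 3 • ![m1, (d2 : ZMod p), (d3 : ZMod p)] : Fin 3 → ZMod p)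
        = ![l1 + 3 • m1, (l2.val : ZMod p) + 3 * d2, (l3.val : ZMod p) + 3 * d3] := by
      ext i; fin_cases i <;> simp
    rw [a1, a2, a3])
  have k0 : m1 = 0 := by simpa using congrFun hd 0
  have k1 : (d2 : ZMod p) = 0 := by simpa using congrFun hd 1
  have k2 : (d3 : ZMod p) = 0 := by simpa using congrFun hd 2
  have q2 : d2 = 0 := by
    rw [ZMod.intCast_zmod_eq_zero_iff_dvd] at k1
    apply Int.eq_zero_of_abs_lt_dvd k1
    push_cast at f2
    have := abs_nonneg d2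
    omega
  have q3 : d3 = 0 := by
    rw [ZMod.intCast_zmod_eq_zero_iff_dvd] at k2
    apply Int.eq_zero_of_abs_lt_dvd k2
    push_cast at g2
    have := abs_nonneg d3
    omega
  rw [q2, Int.cast_zero] at f1
  rw [q3, Int.cast_zero] at g1
  rw [k0, f1, g1]
  rfl

/-- TARGET -/
theorem exists_h (p : ℕ) (hp : p.Prime) (h5 : 5 ≤ p) :
    ∃ h : ZMod p × ZMod (p + 1) × ZMod (p + 2) → ZMod (p * 2 ^ 49),
      ∀ l m, h l - 3 * h (l + m) + 3 * h (l + 2 • m) - h (l + 3 • m) = 0 → m = 0 := by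
  have hodd : Nat.Coprime p (2 ^ 49) := by
    apply Nat.Coprime.pow_right
    rw [Nat.coprime_comm, Nat.Prime.coprime_iff_not_dvd Nat.prime_two]
    intro h
    have := (Nat.prime_dvd_prime_iff_eq Nat.prime_two hp).1 h
    omega
  exact exists_h_aux p (2 ^ 49) hp h5 hodd
    (fun j k => ((8 ^ j + 2 ^ 24 * 8 ^ k : ℕ) : ZMod (2 ^ 49))) code
end part18774

section part18775
/-- analytic bound -/
theorem tr_asym (δ : ℝ) (hδ : 0 < δ) (P : ℝ) (h1 : 1 ≤ P) (h2 : (2744 / δ) ^ 4 ≤ P) :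
    Real.sqrt P * (2 + Real.log P) ^ 3 ≤ δ * P := by
  obtain ⟨t, ht1, htP⟩ : ∃ t : ℝ, 1 ≤ t ∧ t ^ 12 = P := by
    refine ⟨P ^ ((12 : ℕ) : ℝ)⁻¹, Real.one_le_rpow h1 (by positivity), ?_⟩
    exact Real.rpow_inv_natCast_pow (by linarith) (by norm_num)
  have ht0 : 0 < t := by linarith
  have hs : Real.sqrt P = t ^ 6 := by
    rw [← htP, show t ^ 12 = (t ^ 6) ^ 2 by ring]
    exact Real.sqrt_sq (by positivity)
  have hlog : Real.log P ≤ 12 * (t - 1) := by
    rw [← htP, Real.log_pow]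
    push_cast
    have := Real.log_le_sub_one_of_pos ht0
    linarith
  have hlog0 : 0 ≤ Real.log P := Real.log_nonneg h1
  have h3 : (2 + Real.log P) ^ 3 ≤ (14 * t) ^ 3 :=
    pow_le_pow_left₀ (by linarith) (by linarith) 3
  have h4 : 2744 / δ ≤ t ^ 3 := by
    have h5 : (2744 / δ) ^ 4 ≤ (t ^ 3) ^ 4 := by
      rw [show (t ^ 3) ^ 4 = t ^ 12 by ring, htP]
      exact h2
    exact (pow_le_pow_iff_left₀ (by positivity) (by positivity) (by norm_num)).1 h5
  rw [hs]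
  have h6 : 2744 ≤ δ * t ^ 3 := by
    rw [div_le_iff₀ hδ] at h4
    linarith
  calc t ^ 6 * (2 + Real.log P) ^ 3 ≤ t ^ 6 * (14 * t) ^ 3 :=
        mul_le_mul_of_nonneg_left h3 (by positivity)
    _ = 2744 * t ^ 9 := by ring
    _ ≤ (δ * t ^ 3) * t ^ 9 := mul_le_mul_of_nonneg_right h6 (by positivity)
    _ = δ * P := by rw [← htP]; ring

/-- characters of `ZMod P` -/
theorem tr_char {P : ℕ} [NeZero P] (χ : AddChar (ZMod P) ℂ) :
    ∃ b : ZMod P, ∀ x, χ x = ZMod.stdAddChar (b * x) := by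
  have hinj := AddChar.to_mulShift_inj_of_isPrimitive (ZMod.isPrimitive_stdAddChar P)
  have hbij : Function.Bijective (ZMod.stdAddChar (N := P)).mulShift := by
    rw [Fintype.bijective_iff_injective_and_card]
    exact ⟨hinj, AddChar.card_eq.symm⟩
  obtain ⟨b, hb⟩ := hbij.2 χ
  refine ⟨b, fun x => ?_⟩
  rw [← hb, AddChar.mulShift_apply]

/-- TARGET -/
theorem transfer {G : Type} [AddCommGroup G] [Fintype G] [DecidableEq G] (n : ℕ) [NeZero n]
    (h : G → ZMod n)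
    (hh : ∀ l m, h l - 3 * h (l + m) + 3 * h (l + 2 • m) - h (l + 3 • m) = 0 → m = 0)
    (ε : ℝ) (hε : 0 < ε) :
    ∃ P0 : ℕ, ∀ (P : ℕ) [Fact P.Prime], P0 ≤ P → ∃ A : Finset (G × ZMod P),
      (Fintype.card G : ℝ) * P / (20 * n) ≤ A.card ∧
      (∀ ψ : AddChar (G × ZMod P) ℂ, ψ ≠ 1 → ‖∑ x ∈ A, ψ x‖ ≤ ε * (Fintype.card G * P)) ∧
      (((Finset.univ : Finset ((G × ZMod P) × (G × ZMod P))).filter (fun q =>
        q.1 ∈ A ∧ q.1 + q.2 ∈ A ∧ q.1 + 2 • q.2 ∈ A ∧ q.1 + 3 • q.2 ∈ A)).card : ℝ)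
        ≤ Fintype.card G * (P : ℝ) ^ 2 / (500 * (n : ℝ) ^ 3) := by
  classical
  have hn0 : 0 < n := Nat.pos_of_ne_zero (NeZero.ne n)
  have hnR : (1 : ℝ) ≤ n := by exact_mod_cast hn0
  set δ : ℝ := min ε (1 / (1000 * (n : ℝ) ^ 3)) with hδdef
  have hδ : 0 < δ := lt_min hε (by positivity)
  have hδ1 : δ ≤ ε := min_le_left _ _
  have hδ2 : δ ≤ 1 / (1000 * (n : ℝ) ^ 3) := min_le_right _ _
  have hδ3 : δ ≤ 1 / (40 * (n : ℝ)) := by
    refine hδ2.trans ?_
    refine one_div_le_one_div_of_le (by positivity) ?_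
    have : (n : ℝ) ≤ (n : ℝ) ^ 3 := by nlinarith [sq_nonneg ((n : ℝ) - 1)]
    linarith
  refine ⟨⌈(2744 / δ) ^ 4⌉₊ + 100 * n + 3, ?_⟩
  intro P hPf hP
  have hP2 : P ≠ 2 := by omega
  have hP100 : 100 * n ≤ P := by omega
  have hPR1 : (1 : ℝ) ≤ P := by
    have : 1 ≤ P := by omega
    exact_mod_cast this
  have hPpos : (0 : ℝ) < P := by linarith
  have hPbig : (2744 / δ) ^ 4 ≤ (P : ℝ) := by
    have h1 : (⌈(2744 / δ) ^ 4⌉₊ : ℝ) ≤ P := by
      have : ⌈(2744 / δ) ^ 4⌉₊ ≤ P := by omega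
      exact_mod_cast this
    exact (Nat.le_ceil _).trans h1
  have hasym := tr_asym δ hδ P hPR1 hPbig
  have hlogP : 0 ≤ Real.log P := Real.log_nonneg hPR1
  have hsP : 0 ≤ Real.sqrt P := Real.sqrt_nonneg _
  set Er : ℝ := Real.sqrt P * (2 + Real.log P) with hEr
  have hEr0 : 0 ≤ Er := mul_nonneg hsP (by linarith)
  have hErδ : Er ≤ δ * P := by
    refine le_trans ?_ hasym
    refine mul_le_mul_of_nonneg_left ?_ hsP
    have : 1 ≤ 2 + Real.log P := by linarith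
    nlinarith [sq_nonneg (2 + Real.log P), mul_nonneg (sub_nonneg.2 this) (sq_nonneg (2 + Real.log P)),
      mul_nonneg (sub_nonneg.2 this) (by linarith : (0:ℝ) ≤ 2 + Real.log P)]
  set len : ℕ := P / (10 * n) with hlen
  have hlenP : len ≤ P := Nat.div_le_self _ _
  have hlen10 : 10 * n * len ≤ P := Nat.mul_div_le P (10 * n)
  have hlenR : (len : ℝ) ≤ P / (10 * n) := by
    rw [le_div_iff₀ (by positivity)]
    have : (10 * n * len : ℝ) ≤ P := by exact_mod_cast hlen10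
    linarith
  have hlenR2 : (P : ℝ) / (10 * n) - 1 ≤ len := by
    have h1 : P < 10 * n * len + 10 * n := by
      have := Nat.lt_mul_div_succ P (by positivity : 0 < 10 * n)
      rw [Nat.mul_add, Nat.mul_one] at this
      exact this
    have h2 : (P : ℝ) < 10 * n * len + 10 * n := by exact_mod_cast h1
    rw [sub_le_iff_le_add, div_le_iff₀ (by positivity)]
    nlinarith
  let sh : ZMod n → ZMod P := fun k => ((k.val * P / n : ℕ) : ZMod P)
  let cond : G → ZMod P → Prop := fun l x => (x ^ 2 - sh (h l)).val < len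
  let A : Finset (G × ZMod P) := Finset.univ.filter (fun q => cond q.1 q.2)
  have hmemA : ∀ q : G × ZMod P, q ∈ A ↔ (q.2 ^ 2 - sh (h q.1)).val < len := by
    intro q
    simp [A, cond]
  let fib : G → Finset (ZMod P) := fun l =>
    Finset.univ.filter (fun x : ZMod P => (x ^ 2 - sh (h l)).val < len)
  have hsumA : ∀ F : G × ZMod P → ℂ, ∑ q ∈ A, F q = ∑ l : G, ∑ x ∈ fib l, F (l, x) := by
    intro F
    rw [Finset.sum_filter, Fintype.sum_prod_type]
    refine Finset.sum_congr rfl fun l _ => ?_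
    rw [Finset.sum_filter]
  have hfibsum : ∀ (l : G) (b : ZMod P), ‖(∑ x ∈ fib l, (ZMod.stdAddChar (b * x) : ℂ)) -
      (if b = 0 then (len : ℂ) else 0)‖ ≤ Er := fun l b =>
    equi_one hP2 (sh (h l)) b len hlenP
  have hfibcard : ∀ l : G, ‖((fib l).card : ℂ) - len‖ ≤ Er := by
    intro l
    have h1 := hfibsum l 0
    simpa using h1
  have hcardA : (A.card : ℂ) = ∑ l : G, ((fib l).card : ℂ) := by
    have := hsumA (fun _ => 1)
    simpa using this
  have hcardG : (0 : ℝ) ≤ Fintype.card G := Nat.cast_nonneg _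
  refine ⟨A, ?_, ?_, ?_⟩
  · -- cardinality
    have h1 : ‖(A.card : ℂ) - Fintype.card G * len‖ ≤ Fintype.card G * Er := by
      have e : (A.card : ℂ) - Fintype.card G * len = ∑ l : G, (((fib l).card : ℂ) - len) := by
        rw [hcardA, Finset.sum_sub_distrib]
        simp
      rw [e]
      refine (norm_sum_le _ _).trans ?_
      refine (Finset.sum_le_sum fun l _ => hfibcard l).trans ?_
      simp
    have e2 : (A.card : ℂ) - Fintype.card G * len =
        (((A.card : ℝ) - Fintype.card G * len : ℝ) : ℂ) := by push_cast; rfl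
    rw [e2, Complex.norm_real, Real.norm_eq_abs] at h1
    have h2 := (abs_le.1 h1).1
    have h3 : (P : ℝ) / (20 * n) ≤ len - Er := by
      have e3 : Er ≤ P / (40 * n) := by
        refine hErδ.trans ?_
        have := mul_le_mul_of_nonneg_right hδ3 hPpos.le
        calc δ * P ≤ 1 / (40 * (n : ℝ)) * P := this
          _ = P / (40 * n) := by ring
      have e4 : (1 : ℝ) ≤ P / (40 * n) := by
        rw [le_div_iff₀ (by positivity)]
        have : (100 * n : ℝ) ≤ P := by exact_mod_cast hP100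
        linarith
      have e5 : (P : ℝ) / (10 * n) = P / (40 * n) + P / (40 * n) + P / (20 * n) := by
        field_simp
        ring
      linarith
    have h4 := mul_le_mul_of_nonneg_left h3 hcardG
    have e6 : (Fintype.card G : ℝ) * P / (20 * n) = Fintype.card G * (P / (20 * n)) := by ring
    rw [e6]
    linarith
  · -- uniformity
    intro ψ hψ
    let χ1 : AddChar G ℂ := ψ.compAddMonoidHom (AddMonoidHom.inl G (ZMod P))
    let χ2 : AddChar (ZMod P) ℂ := ψ.compAddMonoidHom (AddMonoidHom.inr G (ZMod P))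
    have hsplit : ∀ l x, ψ (l, x) = χ1 l * χ2 x := by
      intro l x
      have e : ((l, x) : G × ZMod P) = (l, 0) + (0, x) := by simp
      rw [e, AddChar.map_add_eq_mul]
      rfl
    obtain ⟨b, hb⟩ := tr_char χ2
    rw [hsumA]
    have e1 : ∀ l : G, ∑ x ∈ fib l, ψ (l, x) = χ1 l * ∑ x ∈ fib l, ZMod.stdAddChar (b * x) := by
      intro l
      rw [Finset.mul_sum]
      refine Finset.sum_congr rfl fun x _ => ?_
      rw [hsplit, hb]
    simp_rw [e1]
    have hfinal : (Fintype.card G : ℝ) * Er ≤ ε * (Fintype.card G * P) := by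
      have h1 : Er ≤ ε * P := hErδ.trans (mul_le_mul_of_nonneg_right hδ1 hPpos.le)
      have h2 := mul_le_mul_of_nonneg_left h1 hcardG
      calc (Fintype.card G : ℝ) * Er ≤ Fintype.card G * (ε * P) := h2
        _ = ε * (Fintype.card G * P) := by ring
    by_cases hb0 : b = 0
    · have hχ1 : χ1 ≠ 0 := by
        intro h0
        apply hψ
        refine DFunLike.ext _ _ fun q => ?_
        obtain ⟨l, x⟩ := q
        rw [hsplit, hb, hb0, h0]
        simp
      have hs0 : ∑ l : G, χ1 l = 0 := AddChar.sum_eq_zero_iff_ne_zero.2 hχ1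
      have e2 : ∑ l : G, χ1 l * ∑ x ∈ fib l, (ZMod.stdAddChar (b * x) : ℂ) =
          ∑ l : G, χ1 l * (((fib l).card : ℂ) - len) := by
        have e3 : ∀ l : G, χ1 l * (((fib l).card : ℂ) - len) =
            χ1 l * ∑ x ∈ fib l, (ZMod.stdAddChar (b * x) : ℂ) - χ1 l * len := by
          intro l
          rw [hb0]
          simp
          ring
        simp_rw [e3]
        rw [Finset.sum_sub_distrib, ← Finset.sum_mul, hs0, zero_mul, sub_zero]
      rw [e2]
      refine (norm_sum_le _ _).trans (le_trans ?_ hfinal)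
      have h5 : ∀ l ∈ (Finset.univ : Finset G), ‖χ1 l * (((fib l).card : ℂ) - len)‖ ≤ Er := by
        intro l _
        rw [norm_mul, AddChar.norm_apply, one_mul]
        exact hfibcard l
      refine (Finset.sum_le_sum h5).trans ?_
      simp
    · refine (norm_sum_le _ _).trans (le_trans ?_ hfinal)
      have h5 : ∀ l ∈ (Finset.univ : Finset G),
          ‖χ1 l * ∑ x ∈ fib l, (ZMod.stdAddChar (b * x) : ℂ)‖ ≤ Er := by
        intro l _
        rw [norm_mul, AddChar.norm_apply, one_mul]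
        have := hfibsum l b
        rwa [if_neg hb0, sub_zero] at this
      refine (Finset.sum_le_sum h5).trans ?_
      simp
  · -- counting
    let B : G → Finset (ZMod P × ZMod P) := fun l =>
      (Finset.univ : Finset (ZMod P × ZMod P)).filter (fun q =>
        (q.1 ^ 2 - sh (h l)).val < len ∧ ((q.1 + q.2) ^ 2 - sh (h l)).val < len ∧
        ((q.1 + 2 * q.2) ^ 2 - sh (h l)).val < len)
    have hcardle : ((Finset.univ : Finset ((G × ZMod P) × (G × ZMod P))).filter (fun q =>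
        q.1 ∈ A ∧ q.1 + q.2 ∈ A ∧ q.1 + 2 • q.2 ∈ A ∧ q.1 + 3 • q.2 ∈ A)).card ≤
        ∑ l : G, (B l).card := by
      have hz : ∀ q : (G × ZMod P) × (G × ZMod P), (q.1 ∈ A ∧ q.1 + q.2 ∈ A ∧
          q.1 + 2 • q.2 ∈ A ∧ q.1 + 3 • q.2 ∈ A) → q.2.1 = 0 := by
        rintro ⟨⟨l, x⟩, ⟨m, d⟩⟩ ⟨h0, h1, h2, h3⟩
        rw [hmemA] at h0 h1 h2 h3
        simp only [Prod.fst_add, Prod.snd_add, Prod.smul_fst, Prod.smul_snd] at h0 h1 h2 h3
        apply hh l m
        refine phase_rel len hlen10 hP100 (h l) (h (l + m)) (h (l + 2 • m)) (h (l + 3 • m))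
          (x ^ 2) ((x + d) ^ 2) ((x + 2 • d) ^ 2) ((x + 3 • d) ^ 2) ?_ h0 h1 h2 h3
        simp only [nsmul_eq_mul]
        push_cast
        ring
      rw [← Finset.card_sigma]
      refine Finset.card_le_card_of_injOn (fun q => (⟨q.1.1, (q.1.2, q.2.2)⟩ :
        Σ _ : G, ZMod P × ZMod P)) ?_ ?_
      · rintro q hq
        have hq' := (Finset.mem_filter.1 (Finset.mem_coe.1 hq)).2
        have hq0 := hz q hq'
        obtain ⟨⟨l, x⟩, ⟨m, d⟩⟩ := q
        simp only at hq0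
        subst hq0
        obtain ⟨h0, h1, h2, -⟩ := hq'
        rw [hmemA] at h0 h1 h2
        simp only [Prod.fst_add, Prod.snd_add, Prod.smul_fst, Prod.smul_snd, smul_zero,
          add_zero] at h0 h1 h2
        simp only [Finset.coe_sigma, Set.mem_sigma_iff, Finset.mem_coe, Finset.mem_univ,
          true_and, B, Finset.mem_filter]
        refine ⟨h0, h1, ?_⟩
        rw [nsmul_eq_mul] at h2
        exact_mod_cast h2
      · intro q hq q' hq' heq
        have h1 := hz q (Finset.mem_filter.1 (Finset.mem_coe.1 hq)).2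
        have h2 := hz q' (Finset.mem_filter.1 (Finset.mem_coe.1 hq')).2
        obtain ⟨⟨l, x⟩, ⟨m, d⟩⟩ := q
        obtain ⟨⟨l', x'⟩, ⟨m', d'⟩⟩ := q'
        simp only at h1 h2
        subst h1
        subst h2
        simp only [Sigma.mk.injEq, heq_eq_eq, Prod.mk.injEq] at heq
        obtain ⟨e1, e2, e3⟩ := heq
        rw [e1, e2, e3]
    have hB : ∀ l : G, ((B l).card : ℝ) ≤ (P : ℝ) ^ 2 / (500 * (n : ℝ) ^ 3) := by
      intro l
      have h1 := count_three hP2 (sh (h l)) len hlenP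
      refine h1.trans ?_
      have e1 : (len : ℝ) ^ 3 / P ≤ (P : ℝ) ^ 2 / (1000 * (n : ℝ) ^ 3) := by
        have h2 : (len : ℝ) ^ 3 ≤ (P / (10 * n)) ^ 3 :=
          pow_le_pow_left₀ (Nat.cast_nonneg _) hlenR 3
        rw [div_le_iff₀ hPpos]
        refine h2.trans (le_of_eq ?_)
        field_simp
        ring
      have e2 : (P : ℝ) * Real.sqrt P * (2 + Real.log P) ^ 3 ≤
          (P : ℝ) ^ 2 / (1000 * (n : ℝ) ^ 3) := by
        have h2 : Real.sqrt P * (2 + Real.log P) ^ 3 ≤ 1 / (1000 * (n : ℝ) ^ 3) * P :=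
          hasym.trans (mul_le_mul_of_nonneg_right hδ2 hPpos.le)
        calc (P : ℝ) * Real.sqrt P * (2 + Real.log P) ^ 3
            = P * (Real.sqrt P * (2 + Real.log P) ^ 3) := by ring
          _ ≤ P * (1 / (1000 * (n : ℝ) ^ 3) * P) := mul_le_mul_of_nonneg_left h2 hPpos.le
          _ = (P : ℝ) ^ 2 / (1000 * (n : ℝ) ^ 3) := by ring
      have e3 : (P : ℝ) ^ 2 / (500 * (n : ℝ) ^ 3) =
          (P : ℝ) ^ 2 / (1000 * (n : ℝ) ^ 3) + (P : ℝ) ^ 2 / (1000 * (n : ℝ) ^ 3) := by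
        field_simp
        ring
      rw [e3]
      linarith
    have hfin : ((∑ l : G, (B l).card : ℕ) : ℝ) ≤
        Fintype.card G * ((P : ℝ) ^ 2 / (500 * (n : ℝ) ^ 3)) := by
      push_cast
      refine (Finset.sum_le_sum fun l _ => hB l).trans ?_
      simp
    have hcast : (((Finset.univ : Finset ((G × ZMod P) × (G × ZMod P))).filter (fun q =>
        q.1 ∈ A ∧ q.1 + q.2 ∈ A ∧ q.1 + 2 • q.2 ∈ A ∧ q.1 + 3 • q.2 ∈ A)).card : ℝ) ≤
        ((∑ l : G, (B l).card : ℕ) : ℝ) := by exact_mod_cast hcardle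
    refine (hcast.trans hfin).trans (le_of_eq ?_)
    ring
end part18775

section part18777
/-- TARGET -/
theorem exists_iso (p P : ℕ) (hp : p.Prime) (h5 : 5 ≤ p) (hP : P.Prime) (hlt : p + 2 < P) :
    Nonempty (ZMod (p * ((p + 1) * (p + 2)) * P) ≃+
      (ZMod p × ZMod (p + 1) × ZMod (p + 2)) × ZMod P) := by
  have h3 : (p + 1).Coprime (p + 2) := by
    rw [show p + 2 = (p + 1) + 1 from rfl, Nat.coprime_self_add_right]
    simp
  have h2 : p.Coprime ((p + 1) * (p + 2)) := by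
    rw [Nat.Prime.coprime_iff_not_dvd hp]
    intro h
    rcases (Nat.Prime.dvd_mul hp).mp h with h | h
    · have := (Nat.dvd_add_right (dvd_refl p)).mp h
      have := Nat.le_of_dvd one_pos this
      omega
    · have := (Nat.dvd_add_right (dvd_refl p)).mp h
      have := Nat.le_of_dvd two_pos this
      omega
  have h1 : (p * ((p + 1) * (p + 2))).Coprime P := by
    apply Nat.Coprime.symm
    rw [Nat.Prime.coprime_iff_not_dvd hP]
    intro h
    rcases (Nat.Prime.dvd_mul hP).mp h with h | h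
    · have := Nat.le_of_dvd (by omega) h
      omega
    · rcases (Nat.Prime.dvd_mul hP).mp h with h | h
      · have := Nat.le_of_dvd (by omega) h
        omega
      · have := Nat.le_of_dvd (by omega) h
        omega
  exact ⟨(ZMod.chineseRemainder h1).toAddEquiv.trans
    (AddEquiv.prodCongr ((ZMod.chineseRemainder h2).toAddEquiv.trans
      (AddEquiv.prodCongr (AddEquiv.refl _) (ZMod.chineseRemainder h3).toAddEquiv))
      (AddEquiv.refl _))⟩
end part18777

section part18778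
/-- TARGET: from additive characters to the explicit Fourier coefficients of the balanced function -/
theorem char_bridge {N : ℕ} (A : Finset (ZMod (N + 1))) (η : ℝ) (hη : 0 ≤ η)
    (h : ∀ ψ : AddChar (ZMod (N + 1)) ℂ, ψ ≠ 1 → ‖∑ x ∈ A, ψ x‖ ≤ η) (r : ZMod (N + 1)) :
    ‖∑ x : ZMod (N + 1),
        ((if x ∈ A then (1 : ℂ) else 0) - (A.card : ℂ) / ((N : ℂ) + 1)) *
          Complex.exp (-(2 * (Real.pi : ℂ) * Complex.I * ((x.val * r.val : ℕ) : ℂ))
            / ((N : ℂ) + 1))‖ ≤ η := by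
  set ψ : AddChar (ZMod (N + 1)) ℂ := AddChar.mulShift ZMod.stdAddChar (-r) with hψ
  have h1 : ∀ x : ZMod (N + 1), Complex.exp (-(2 * (Real.pi : ℂ) * Complex.I *
      ((x.val * r.val : ℕ) : ℂ)) / ((N : ℂ) + 1)) = ψ x := by
    intro x
    rw [hψ, AddChar.mulShift_apply]
    have h2 : -r * x = (((-((x.val * r.val : ℕ) : ℤ)) : ℤ) : ZMod (N + 1)) := by
      push_cast
      rw [ZMod.natCast_zmod_val, ZMod.natCast_zmod_val]
      ring
    rw [h2, ZMod.stdAddChar_coe]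
    congr 1
    push_cast
    ring
  have hN : ((N : ℂ) + 1) ≠ 0 := by exact_mod_cast Nat.succ_ne_zero N
  simp only [h1, sub_mul, ite_mul, one_mul, zero_mul]
  rw [Finset.sum_sub_distrib, ← Finset.mul_sum, Finset.sum_ite_mem, Finset.univ_inter,
    AddChar.sum_eq_ite]
  by_cases hψ1 : ψ = 0
  · rw [if_pos hψ1, hψ1]
    have : (∑ x ∈ A, (0 : AddChar (ZMod (N + 1)) ℂ) x) - (A.card : ℂ) / ((N : ℂ) + 1) *
        ((Fintype.card (ZMod (N + 1)) : ℕ) : ℂ) = 0 := by
      simp only [AddChar.zero_apply, Finset.sum_const, nsmul_eq_mul, mul_one, ZMod.card]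
      push_cast
      field_simp
      ring
    rw [this, norm_zero]
    exact hη
  · rw [if_neg hψ1, mul_zero, sub_zero]
    exact h ψ hψ1
end part18778

section part18779
/-- TARGET -/
theorem numeric (C : ℝ) (hC : C < 6) (c : ℝ) (hc : 0 < c) :
    ∃ p : ℕ, p.Prime ∧ 5 ≤ p ∧
      1 / (500 * ((p * 2 ^ 49 : ℕ) : ℝ) ^ 3) <
        c * (1 / (20 * ((p * 2 ^ 49 : ℕ) : ℝ))) ^ C * ((p * ((p + 1) * (p + 2)) : ℕ) : ℝ) := by
  have ht : Filter.Tendsto (fun x : ℝ => x ^ (6 - C)) Filter.atTop Filter.atTop :=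
    tendsto_rpow_atTop (by linarith)
  obtain ⟨x0, hx0⟩ := Filter.eventually_atTop.1 (ht.eventually_gt_atTop (2 ^ 147 * 20 ^ 6 / (500 * c)))
  obtain ⟨p, hp, hpp⟩ := Nat.exists_infinite_primes (max 5 ⌈x0⌉₊)
  have hp5 : 5 ≤ p := le_trans (le_max_left _ _) hp
  have hpx : x0 ≤ (p : ℝ) := le_trans (Nat.le_ceil x0) (by exact_mod_cast le_trans (le_max_right _ _) hp)
  refine ⟨p, hpp, hp5, ?_⟩
  have hp0 : (0 : ℝ) < p := by
    have : 0 < p := by omega
    exact_mod_cast this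
  obtain ⟨n, hn⟩ : ∃ n : ℝ, n = ((p * 2 ^ 49 : ℕ) : ℝ) := ⟨_, rfl⟩
  rw [← hn]
  have hn' : n = (p : ℝ) * 2 ^ 49 := by rw [hn]; push_cast; ring
  have hn0 : 0 < n := by rw [hn']; positivity
  have hx : x0 ≤ 20 * n := by
    have : (p : ℝ) ≤ 20 * n := by rw [hn']; nlinarith
    linarith
  have hbig := hx0 (20 * n) hx
  have hy : 0 < (20 * n) ^ C := Real.rpow_pos_of_pos (by positivity) C
  obtain ⟨y, hyd⟩ : ∃ y : ℝ, y = (20 * n) ^ C := ⟨_, rfl⟩
  have e1 : (20 * n) ^ (6 - C) = (20 * n) ^ 6 / y := by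
    rw [Real.rpow_sub (by positivity), hyd]
    congr 1
    exact_mod_cast Real.rpow_natCast (20 * n) 6
  have e2 : (1 / (20 * n)) ^ C = 1 / y := by
    rw [one_div, Real.inv_rpow (by positivity), hyd, one_div]
  rw [← hyd] at hy
  simp only [e1] at hbig
  rw [e2]
  have hP : (n / 2 ^ 49) ^ 3 ≤ ((p * ((p + 1) * (p + 2)) : ℕ) : ℝ) := by
    have : n / 2 ^ 49 = p := by rw [hn']; field_simp
    rw [this]
    push_cast
    nlinarith
  have h3 : y < 500 * c * n ^ 6 / 2 ^ 147 := by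
    rw [div_lt_div_iff₀ (by positivity) hy] at hbig
    rw [lt_div_iff₀ (by positivity)]
    have e3 : (20 * n) ^ 6 * (500 * c) = 20 ^ 6 * (500 * c * n ^ 6) := by ring
    rw [e3] at hbig
    have e4 : (2:ℝ) ^ 147 * 20 ^ 6 * y = 20 ^ 6 * (y * 2 ^ 147) := by ring
    rw [e4] at hbig
    exact lt_of_mul_lt_mul_left hbig (by positivity)
  calc 1 / (500 * n ^ 3) < c * (1 / y) * (n / 2 ^ 49) ^ 3 := by
        have e5 : c * (1 / y) * (n / 2 ^ 49) ^ 3 = c * n ^ 3 / (y * 2 ^ 147) := by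
          field_simp
        rw [e5, div_lt_div_iff₀ (by positivity) (by positivity)]
        rw [lt_div_iff₀ (by positivity)] at h3
        nlinarith
    _ ≤ c * (1 / y) * ((p * ((p + 1) * (p + 2)) : ℕ) : ℝ) :=
        mul_le_mul_of_nonneg_left hP (by positivity)
end part18779

section part18781
theorem fa_count {H : Type} [AddCommGroup H] [Fintype H] [DecidableEq H] {N : ℕ}
    (e : ZMod (N + 1) ≃+ H) (A : Finset H) (B : Finset (ZMod (N + 1)))
    (hBmem : ∀ x, x ∈ B ↔ e x ∈ A) :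
    ((Finset.univ : Finset (ZMod (N + 1) × ZMod (N + 1))).filter
        (fun p => p.1 ∈ B ∧ p.1 + p.2 ∈ B ∧ p.1 + 2 * p.2 ∈ B ∧ p.1 + 3 * p.2 ∈ B)).card =
      ((Finset.univ : Finset (H × H)).filter (fun q =>
        q.1 ∈ A ∧ q.1 + q.2 ∈ A ∧ q.1 + 2 • q.2 ∈ A ∧ q.1 + 3 • q.2 ∈ A)).card := by
  refine Finset.card_equiv (e.toEquiv.prodCongr e.toEquiv) ?_
  rintro ⟨x, d⟩
  simp only [Finset.mem_filter, Finset.mem_univ, true_and, hBmem]
  have e2 : e (x + 2 * d) = e x + 2 • e d := by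
    rw [map_add, ← map_nsmul]
    congr 2
    rw [two_nsmul, two_mul]
  have e3 : e (x + 3 * d) = e x + 3 • e d := by
    rw [map_add, ← map_nsmul]
    congr 2
    rw [nsmul_eq_mul]
    norm_num
  rw [e2, e3, map_add]
  rfl

/-- TARGET -/
theorem result (C : ℝ) (hC : C < 6) :
    ¬ (∃ c : ℝ, 0 < c ∧ ∀ α : ℝ, 0 < α → α ≤ 1 →
      ∃ ε : ℝ, 0 < ε ∧ ∃ N₀ : ℕ, ∀ N : ℕ, N₀ ≤ N →
        ∀ A : Finset (ZMod (N + 1)),
          α * ((N : ℝ) + 1) ≤ (A.card : ℝ) →
          (∀ r : ZMod (N + 1),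
            ‖∑ x : ZMod (N + 1),
                ((if x ∈ A then (1 : ℂ) else 0) - (A.card : ℂ) / ((N : ℂ) + 1)) *
                  Complex.exp (-(2 * (Real.pi : ℂ) * Complex.I * ((x.val * r.val : ℕ) : ℂ))
                    / ((N : ℂ) + 1))‖
              ≤ ε * ((N : ℝ) + 1)) →
          c * α ^ C * ((N : ℝ) + 1) ^ 2 ≤
            (((Finset.univ : Finset (ZMod (N + 1) × ZMod (N + 1))).filter
              (fun p => p.1 ∈ A ∧ p.1 + p.2 ∈ A ∧ p.1 + 2 * p.2 ∈ A ∧ p.1 + 3 * p.2 ∈ A)).card : ℝ)) := by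
  rintro ⟨c, hc, H⟩
  obtain ⟨p, hp, h5, hnum⟩ := numeric C hC c hc
  have hp0 : p ≠ 0 := by omega
  have : NeZero p := ⟨hp0⟩
  have hex := exists_h p hp h5
  have hn0 : p * 2 ^ 49 ≠ 0 := Nat.mul_ne_zero hp0 (pow_ne_zero _ two_ne_zero)
  obtain ⟨n, hn⟩ : ∃ n, n = p * 2 ^ 49 := ⟨_, rfl⟩
  rw [← hn] at hex hnum hn0
  clear hn
  have : NeZero n := ⟨hn0⟩
  obtain ⟨h, hh⟩ := hex
  have hn1 : 1 ≤ (n : ℝ) := by
    have : 1 ≤ n := Nat.pos_of_ne_zero hn0
    exact_mod_cast this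
  obtain ⟨ε, hε, N₀, H2⟩ := H (1 / (20 * (n : ℝ))) (by positivity) (by
    rw [div_le_one (by positivity)]; linarith)
  obtain ⟨P0, HP⟩ := transfer n h hh ε hε
  obtain ⟨P, hPge, hP⟩ := Nat.exists_infinite_primes (P0 + (N₀ + 1) + (p + 3))
  have : Fact P.Prime := ⟨hP⟩
  obtain ⟨A, hAc, hAψ, hcount⟩ := HP P (by omega)
  have hcardG : Fintype.card (ZMod p × ZMod (p + 1) × ZMod (p + 2)) = p * ((p + 1) * (p + 2)) := by
    rw [Fintype.card_prod, Fintype.card_prod, ZMod.card, ZMod.card, ZMod.card]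
  obtain ⟨g, hg⟩ : ∃ g, g = p * ((p + 1) * (p + 2)) := ⟨_, rfl⟩
  rw [hcardG, ← hg] at hAc hcount
  rw [hcardG, ← hg] at hAψ
  rw [← hg] at hnum
  have hg1 : 1 ≤ g := by
    rw [hg]; exact Nat.mul_pos (Nat.pos_of_ne_zero hp0) (by positivity)
  obtain ⟨N, hN⟩ : ∃ N, g * P = N + 1 := by
    have : 1 ≤ g * P := Nat.mul_pos hg1 hP.pos
    exact ⟨g * P - 1, by omega⟩
  obtain ⟨e⟩ : Nonempty (ZMod (N + 1) ≃+ (ZMod p × ZMod (p + 1) × ZMod (p + 2)) × ZMod P) := by
    rw [← hN, hg]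
    exact exists_iso p P hp h5 hP (by omega)
  have hNR : (N : ℝ) + 1 = (g : ℝ) * P := by
    have : ((g * P : ℕ) : ℝ) = ((N + 1 : ℕ) : ℝ) := by rw [hN]
    push_cast at this
    linarith
  have hNN : N₀ ≤ N := by
    have h1 : P ≤ g * P := Nat.le_mul_of_pos_left P hg1
    omega
  obtain ⟨B, hB⟩ : ∃ B : Finset (ZMod (N + 1)), B = A.map e.symm.toEquiv.toEmbedding := ⟨_, rfl⟩
  have hBcard : B.card = A.card := by rw [hB, Finset.card_map]
  have hBmem : ∀ x, x ∈ B ↔ e x ∈ A := by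
    intro x
    rw [hB, Finset.mem_map]
    constructor
    · rintro ⟨y, hy, hyx⟩
      have : e x = y := by
        rw [← hyx]
        exact e.apply_symm_apply y
      rw [this]; exact hy
    · intro hx
      exact ⟨e x, hx, e.symm_apply_apply x⟩
  have hkey := H2 N hNN B (by
      rw [hBcard, hNR]
      refine le_trans (le_of_eq ?_) hAc
      field_simp)
    (char_bridge B (ε * ((N : ℝ) + 1)) (by positivity) (by
      intro ψ hψ
      have h1 : ∑ x ∈ B, ψ x = ∑ y ∈ A, (ψ.compAddMonoidHom e.symm.toAddMonoidHom) y := by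
        rw [hB, Finset.sum_map]
        rfl
      rw [h1, hNR]
      refine hAψ _ ?_
      intro h2
      apply hψ
      ext x
      have h3 : (ψ.compAddMonoidHom e.symm.toAddMonoidHom) (e x) = 1 := by rw [h2]; rfl
      have h4 : (ψ.compAddMonoidHom e.symm.toAddMonoidHom) (e x) = ψ x := by
        show ψ (e.symm (e x)) = ψ x
        rw [e.symm_apply_apply]
      rw [← h4, h3]
      rfl))
  rw [fa_count e A B hBmem] at hkey
  have hfin := hkey.trans hcount
  rw [hNR] at hfin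
  have hP0 : (0 : ℝ) < P := by exact_mod_cast hP.pos
  have hg0 : (0 : ℝ) < g := by exact_mod_cast hg1
  have h1 : (1 / (500 * (n : ℝ) ^ 3)) * ((g : ℝ) * (P : ℝ) ^ 2) <
      (c * (1 / (20 * (n : ℝ))) ^ C * (g : ℝ)) * ((g : ℝ) * (P : ℝ) ^ 2) :=
    mul_lt_mul_of_pos_right hnum (by positivity)
  have h2 : (c * (1 / (20 * (n : ℝ))) ^ C * (g : ℝ)) * ((g : ℝ) * (P : ℝ) ^ 2) =
      c * (1 / (20 * (n : ℝ))) ^ C * ((g : ℝ) * P) ^ 2 := by ring
  have h3 : (1 / (500 * (n : ℝ) ^ 3)) * ((g : ℝ) * (P : ℝ) ^ 2) =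
      (g : ℝ) * (P : ℝ) ^ 2 / (500 * (n : ℝ) ^ 3) := by ring
  rw [h2, h3] at h1
  linarith
end part18781

end Pool.Agent.Results.MP_522be6_co.ExponentSix
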